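import Mathlib

/-!
# Exhaustion, and the product of a countably closed forcing with a measure algebra
-/

set_option autoImplicit false

namespace Pool.Agent.TH785.SD

open MeasureTheory Set

open scoped ENNReal

variable {Ω : Type} [MeasurableSpace Ω] {μ : Measure Ω} [IsFiniteMeasure μ]

/-- Exhaustion: a family of measurable sets closed under countable unions has a largest member
modulo null sets. -/
theorem exhaust {C : Set Ω → Prop} (h0 : C ∅) (hm : ∀ c, C c → MeasurableSet c)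
    (hU : ∀ f : ℕ → Set Ω, (∀ n, C (f n)) → C (⋃ n, f n)) :
    ∃ c, C c ∧ (∀ c', C c' → μ c' ≤ μ c) ∧ ∀ c', C c' → μ (c' \ c) = 0 := by
  let S : Set ℝ≥0∞ := {t | ∃ c, C c ∧ μ c = t}
  have hne : S.Nonempty := ⟨_, ∅, h0, rfl⟩
  obtain ⟨u, -, hu1, hu2⟩ := exists_seq_tendsto_sSup hne (OrderTop.bddAbove S)
  choose f hf1 hf2 using hu2
  have hc : C (⋃ n, f n) := hU f hf1
  have hmax : ∀ c', C c' → μ c' ≤ μ (⋃ n, f n) := by
    intro c' hc'
    have h1 : μ c' ≤ sSup S := le_sSup ⟨c', hc', rfl⟩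
    have h2 : sSup S ≤ μ (⋃ n, f n) := by
      refine le_of_tendsto' hu1 fun n => ?_
      rw [← hf2 n]
      exact measure_mono (subset_iUnion f n)
    exact h1.trans h2
  refine ⟨_, hc, hmax, fun c' hc' => ?_⟩
  have h3 : C (c' ∪ ⋃ n, f n) := by
    have h4 := hU (fun n => Nat.casesOn n c' fun _ => ⋃ n, f n) (by
      intro n
      cases n with
      | zero => exact hc'
      | succ n => exact hc)
    have h5 : (⋃ n : ℕ, (Nat.casesOn n c' fun _ => ⋃ n, f n : Set Ω)) = c' ∪ ⋃ n, f n := by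
      ext x
      simp only [mem_iUnion, mem_union]
      constructor
      · rintro ⟨n, hn⟩
        cases n with
        | zero => exact Or.inl hn
        | succ n => exact Or.inr (by simpa using hn)
      · rintro (h | h)
        · exact ⟨0, h⟩
        · exact ⟨1, by simpa using h⟩
    rw [h5] at h4
    exact h4
  have h6 := hmax _ h3
  have h7 : c' ∪ (⋃ n, f n) = (c' \ ⋃ n, f n) ∪ ⋃ n, f n := by simp
  rw [h7, measure_union disjoint_sdiff_left (hm _ hc)] at h6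
  have h8 : μ (⋃ n, f n) ≠ ⊤ := measure_ne_top _ _
  have h9 : μ (c' \ ⋃ n, f n) + μ (⋃ n, f n) ≤ 0 + μ (⋃ n, f n) := by rwa [zero_add]
  exact le_antisymm ((ENNReal.add_le_add_iff_right h8).1 h9) zero_le

/-- the positive measurable sets -/
def Bs (μ : Measure Ω) : Type := {b : Set Ω // MeasurableSet b ∧ μ b ≠ 0}

instance : Preorder (Bs μ) where
  le b c := b.1 ⊆ c.1
  le_refl _ := subset_rfl
  le_trans _ _ _ h1 h2 := subset_trans h1 h2

variable {J : Type}

/-- a countably closed relation -/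
structure SC (R : J → J → Prop) : Prop where
  refl : ∀ j, R j j
  trans : ∀ i j k, R i j → R j k → R i k
  lb : ∀ s : ℕ → J, (∀ n, R (s (n + 1)) (s n)) → ∃ l, ∀ n, R l (s n)

theorem SC.seq_le {R : J → J → Prop} (hR : SC R) {s : ℕ → J} (hs : ∀ n, R (s (n + 1)) (s n))
    {m n : ℕ} (h : m ≤ n) : R (s n) (s m) := by
  induction n, h using Nat.le_induction with
  | base => exact hR.refl _
  | succ n _ ih => exact hR.trans _ _ _ (hs n) ih

/-- countably many goals -/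
theorem SC.goals {R : J → J → Prop} (hR : SC R) {G : ℕ → J → Prop}
    (hp : ∀ n i j, R i j → G n j → G n i) {j0 : J} (hd : ∀ n j, R j j0 → ∃ i, R i j ∧ G n i) :
    ∃ j, R j j0 ∧ ∀ n, G n j := by
  classical
  have hd' : ∀ n j, ∃ i, R i j ∧ (R j j0 → G n i) := by
    intro n j
    by_cases h : R j j0
    · obtain ⟨i, h1, h2⟩ := hd n j h
      exact ⟨i, h1, fun _ => h2⟩
    · exact ⟨j, hR.refl j, fun h' => absurd h' h⟩
  choose f hf1 hf2 using hd'
  let s : ℕ → J := fun n => Nat.rec j0 (fun n j => f n j) n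
  have hs : ∀ n, R (s (n + 1)) (s n) := fun n => hf1 n _
  obtain ⟨l, hl⟩ := hR.lb s hs
  refine ⟨l, hl 0, fun n => ?_⟩
  exact hp n _ _ (hl (n + 1)) (hf2 n (s n) (hR.seq_le hs (Nat.zero_le n)))

/-- a bounded monotone function is constant somewhere -/
theorem SC.stable {R : J → J → Prop} (hR : SC R) {m : J → ℝ≥0∞} (hm : ∀ i j, R i j → m j ≤ m i)
    (hb : ∀ j, m j ≠ ⊤) (hb' : ∃ M, M ≠ ⊤ ∧ ∀ j, m j ≤ M) (j0 : J) :
    ∃ j, R j j0 ∧ ∀ i, R i j → m i ≤ m j := by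
  obtain ⟨M, hM1, hM2⟩ := hb'
  have h1 : ∀ n j, ∃ i, R i j ∧ ∀ i', R i' j → m i' ≤ m i + (1 / (n + 1 : ℕ) : ℝ≥0∞) := by
    intro n j
    let S : Set ℝ≥0∞ := {t | ∃ i, R i j ∧ m i = t}
    have hne : S.Nonempty := ⟨_, j, hR.refl j, rfl⟩
    have hS : sSup S ≠ ⊤ := by
      refine ne_top_of_le_ne_top hM1 (sSup_le ?_)
      rintro _ ⟨i, -, rfl⟩
      exact hM2 i
    by_cases h0 : sSup S = 0
    · refine ⟨j, hR.refl j, fun i' hi' => ?_⟩
      have h2 : m i' ≤ sSup S := le_sSup ⟨i', hi', rfl⟩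
      rw [h0] at h2
      exact h2.trans zero_le
    · have h3 : sSup S - (1 / (n + 1 : ℕ) : ℝ≥0∞) < sSup S :=
        ENNReal.sub_lt_self hS h0 (by simp)
      obtain ⟨_, ⟨i, hi1, rfl⟩, hi2⟩ := exists_lt_of_lt_csSup hne h3
      refine ⟨i, hi1, fun i' hi' => ?_⟩
      have h4 : m i' ≤ sSup S := le_sSup ⟨i', hi', rfl⟩
      refine h4.trans ?_
      exact tsub_le_iff_right.1 hi2.le
  choose f hf1 hf2 using h1
  let s : ℕ → J := fun n => Nat.rec j0 (fun n j => f n j) n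
  have hs : ∀ n, R (s (n + 1)) (s n) := fun n => hf1 n _
  obtain ⟨l, hl⟩ := hR.lb s hs
  refine ⟨l, hl 0, fun i hi => ?_⟩
  have h5 : ∀ n : ℕ, m i ≤ m l + (1 / (n + 1 : ℕ) : ℝ≥0∞) := by
    intro n
    have h6 := hf2 n (s n) i (hR.trans _ _ _ hi (hl n))
    exact h6.trans (add_le_add (hm _ _ (hl (n + 1))) le_rfl)
  have h7 : Filter.Tendsto (fun n : ℕ => m l + (1 / (n + 1 : ℕ) : ℝ≥0∞)) Filter.atTop
      (nhds (m l + 0)) := by
    refine Filter.Tendsto.const_add _ ?_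
    have h8 := ENNReal.tendsto_inv_nat_nhds_zero
    have h9 := (Filter.tendsto_add_atTop_iff_nat 1).2 h8
    simpa [one_div] using h9
  rw [add_zero] at h7
  exact ge_of_tendsto' h7 h5

/-- The main lemma on products of countably closed forcings and measure algebras. -/
theorem SC.decide {R : J → J → Prop} (hR : SC R) {D : J → Bs μ → Prop}
    (hD1 : ∀ i j b, R i j → D j b → D i b) (hD2 : ∀ j b c, c ≤ b → D j b → D j c) {j0 : J}
    {b0 : Bs μ} (hd : ∀ j, R j j0 → ∀ b ≤ b0, ∃ i, R i j ∧ ∃ c ≤ b, D i c) :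
    ∃ j, R j j0 ∧ ∀ b ≤ b0, ∃ c ≤ b, D j c := by
  -- the parts where the decision is made
  let Θ : J → Set Ω → Prop := fun j c => MeasurableSet c ∧ c ⊆ b0.1 ∧
    ∀ b : Bs μ, b.1 ⊆ c → ∃ c' ≤ b, D j c'
  have hΘ0 : ∀ j, Θ j ∅ := fun j => ⟨MeasurableSet.empty, empty_subset _, fun b hb =>
    absurd (measure_mono_null hb measure_empty) b.2.2⟩
  have hΘU : ∀ j, ∀ f : ℕ → Set Ω, (∀ n, Θ j (f n)) → Θ j (⋃ n, f n) := by
    intro j f hf
    refine ⟨MeasurableSet.iUnion fun n => (hf n).1, iUnion_subset fun n => (hf n).2.1, ?_⟩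
    intro b hb
    have h1 : ∃ n, μ (b.1 ∩ f n) ≠ 0 := by
      by_contra hcon
      push Not at hcon
      apply b.2.2
      have h2 : b.1 = ⋃ n, b.1 ∩ f n := by
        rw [← inter_iUnion]
        exact (inter_eq_left.2 hb).symm
      rw [h2]
      exact measure_iUnion_null hcon
    obtain ⟨n, hn⟩ := h1
    obtain ⟨c', hc'1, hc'2⟩ := (hf n).2.2 ⟨b.1 ∩ f n, b.2.1.inter (hf n).1, hn⟩ inter_subset_right
    exact ⟨c', Set.Subset.trans hc'1 inter_subset_left, hc'2⟩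
  choose c hc1 hc2 hc3 using fun j => exhaust (μ := μ) (hΘ0 j) (fun c hc => hc.1) (hΘU j)
  have hmono : ∀ i j, R i j → μ (c j) ≤ μ (c i) := by
    intro i j hij
    refine hc2 i _ ⟨(hc1 j).1, (hc1 j).2.1, fun b hb => ?_⟩
    obtain ⟨c', h1, h2⟩ := (hc1 j).2.2 b hb
    exact ⟨c', h1, hD1 _ _ _ hij h2⟩
  obtain ⟨j, hj1, hj2⟩ := hR.stable hmono (fun j => measure_ne_top _ _)
    ⟨μ univ, measure_ne_top _ _, fun j => measure_mono (subset_univ _)⟩ j0
  refine ⟨j, hj1, ?_⟩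
  have hnull : μ (b0.1 \ c j) = 0 := by
    by_contra hcon
    obtain ⟨i, hi1, d, hd1, hd2⟩ := hd j hj1 ⟨b0.1 \ c j, b0.2.1.diff (hc1 j).1, hcon⟩ sdiff_subset
    have hdc : Disjoint d.1 (c j) := Set.disjoint_left.2 fun x hx hx' => (hd1 hx).2 hx'
    have h1 : Θ i (d.1 ∪ c j) := by
      refine ⟨d.2.1.union (hc1 j).1, union_subset (hd1.trans sdiff_subset) (hc1 j).2.1, ?_⟩
      intro b hb
      by_cases h2 : μ (b.1 ∩ d.1) = 0
      · have h3 : μ (b.1 ∩ c j) ≠ 0 := by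
          intro h3
          apply b.2.2
          refine measure_mono_null (t := (b.1 ∩ d.1) ∪ (b.1 ∩ c j)) ?_ (measure_union_null h2 h3)
          rw [← inter_union_distrib_left]
          exact subset_inter subset_rfl hb
        obtain ⟨c', h4, h5⟩ := (hc1 j).2.2 ⟨b.1 ∩ c j, b.2.1.inter (hc1 j).1, h3⟩ inter_subset_right
        exact ⟨c', Set.Subset.trans h4 inter_subset_left, hD1 _ _ _ hi1 h5⟩
      · exact ⟨⟨b.1 ∩ d.1, b.2.1.inter d.2.1, h2⟩, inter_subset_left,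
          hD2 _ d _ inter_subset_right hd2⟩
    have h2 := hc2 i _ h1
    have h3 := hj2 i hi1
    rw [measure_union hdc (hc1 j).1] at h2
    have h4 : μ d.1 + μ (c j) ≤ 0 + μ (c j) := by
      rw [zero_add]
      exact h2.trans h3
    have h5 := (ENNReal.add_le_add_iff_right (measure_ne_top μ (c j))).1 h4
    exact d.2.2 (le_antisymm h5 zero_le)
  intro b hb
  have h1 : μ (b.1 ∩ c j) ≠ 0 := by
    intro h1
    apply b.2.2
    refine measure_mono_null (t := (b.1 ∩ c j) ∪ (b0.1 \ c j)) ?_ (measure_union_null h1 hnull)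
    intro x hx
    by_cases hxc : x ∈ c j
    · exact Or.inl ⟨hx, hxc⟩
    · exact Or.inr ⟨hb hx, hxc⟩
  obtain ⟨c', h4, h5⟩ := (hc1 j).2.2 ⟨b.1 ∩ c j, b.2.1.inter (hc1 j).1, h1⟩ inter_subset_right
  exact ⟨c', Set.Subset.trans h4 inter_subset_left, h5⟩

end Pool.Agent.TH785.SD
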