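import Mathlib
import Pool.Agent.Helper996.DowkerTree

/-!
# A subadditive function on a well order with countable initial segments
-/

set_option autoImplicit false

namespace Pool.Agent.TH785.SD

open Set

/-- The properties of the function `r`. -/
structure Sub {W : Type} [LinearOrder W] (r : W → W → ℕ) : Prop where
  s1 : ∀ a b c, a < b → b < c → r a c ≤ max (r a b) (r b c)
  s2 : ∀ a b c, a < b → b < c → r a b ≤ max (r a c) (r b c)
  fin : ∀ a n, {b | b < a ∧ r b a ≤ n}.Finite

theorem exists_rho {W : Type} [LinearOrder W] [WellFoundedLT W]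
    (hc : ∀ a : W, (Set.Iio a).Countable) : ∃ r : W → W → ℕ, Sub r := by
  classical
  obtain ⟨e, he1, he2⟩ := Pool.Agent.Helper996.Dowker.exists_coherent hc
  let G : W → W → ℕ → Prop := fun a b n =>
    e b a ≤ n ∧ ∀ c, c < a → e a c ≠ e b c → e a c ≤ n ∧ e b c ≤ n
  have hG : ∀ a b, a < b → ∃ n, G a b n := by
    intro a b hab
    have hf := he2 b a hab
    obtain ⟨n1, hn1⟩ := (hf.image (fun c => e a c)).bddAbove
    obtain ⟨n2, hn2⟩ := (hf.image (fun c => e b c)).bddAbove
    refine ⟨max (e b a) (max n1 n2), le_max_left _ _, fun c hc1 hc2 => ⟨?_, ?_⟩⟩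
    · exact (hn1 ⟨c, ⟨hc1, hc2.symm⟩, rfl⟩).trans ((le_max_left _ _).trans (le_max_right _ _))
    · exact (hn2 ⟨c, ⟨hc1, hc2.symm⟩, rfl⟩).trans ((le_max_right _ _).trans (le_max_right _ _))
  let r : W → W → ℕ := fun a b => if h : a < b then Nat.find (hG a b h) else 0
  have hr : ∀ a b, a < b → G a b (r a b) := by
    intro a b h
    simp only [r, dif_pos h]
    exact Nat.find_spec (hG a b h)
  have hr' : ∀ a b n, a < b → G a b n → r a b ≤ n := by
    intro a b n h hg
    simp only [r, dif_pos h]
    exact Nat.find_min' (hG a b h) hg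
  refine ⟨r, ⟨?_, ?_, ?_⟩⟩
  · intro a b c hab hbc
    have h1 := hr a b hab
    have h2 := hr b c hbc
    set n := max (r a b) (r b c) with hn
    have hn1 : r a b ≤ n := le_max_left _ _
    have hn2 : r b c ≤ n := le_max_right _ _
    refine hr' a c n (hab.trans hbc) ⟨?_, ?_⟩
    · by_cases hne : e b a = e c a
      · rw [← hne]; exact h1.1.trans hn1
      · exact (h2.2 a hab hne).2.trans hn2
    · intro d hd hne
      by_cases h3 : e a d = e b d
      · have h4 : e b d ≠ e c d := by rw [← h3]; exact hne
        have h5 := h2.2 d (hd.trans hab) h4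
        rw [h3]
        exact ⟨h5.1.trans hn2, h5.2.trans hn2⟩
      · have h4 := h1.2 d hd h3
        refine ⟨h4.1.trans hn1, ?_⟩
        by_cases h6 : e b d = e c d
        · rw [← h6]; exact h4.2.trans hn1
        · exact (h2.2 d (hd.trans hab) h6).2.trans hn2
  · intro a b c hab hbc
    have h1 := hr a c (hab.trans hbc)
    have h2 := hr b c hbc
    set n := max (r a c) (r b c) with hn
    have hn1 : r a c ≤ n := le_max_left _ _
    have hn2 : r b c ≤ n := le_max_right _ _
    refine hr' a b n hab ⟨?_, ?_⟩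
    · by_cases hne : e b a = e c a
      · rw [hne]; exact h1.1.trans hn1
      · exact (h2.2 a hab hne).1.trans hn2
    · intro d hd hne
      by_cases h3 : e b d = e c d
      · have h4 : e a d ≠ e c d := by rw [← h3]; exact hne
        have h5 := h1.2 d hd h4
        rw [h3]
        exact ⟨h5.1.trans hn1, h5.2.trans hn1⟩
      · have h4 := h2.2 d (hd.trans hab) h3
        refine ⟨?_, h4.1.trans hn2⟩
        by_cases h6 : e a d = e c d
        · rw [h6]; exact h4.2.trans hn2
        · exact (h1.2 d hd h6).1.trans hn1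
  · intro a n
    refine ((Set.finite_Iic n).biUnion fun k _ => he1 a k).subset ?_
    rintro b ⟨hb1, hb2⟩
    simp only [mem_iUnion]
    exact ⟨e a b, (hr b a hb1).1.trans hb2, hb1, rfl⟩

end Pool.Agent.TH785.SD
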