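import Mathlib
import Pool.Agent.TH785.SD.Rho

/-!
# Neighbourhoods of the points of a tree times the natural numbers
-/

set_option autoImplicit false

namespace Pool.Agent.TH785.SD

open Set

variable {W : Type} [LinearOrder W]

/-- nodes: a height and a function -/
abbrev Nd (W : Type) : Type := W × (W → ℕ)

/-- the restriction of a node to the height `a` -/
noncomputable def res (x : Nd W) (a : W) : Nd W := (a, fun b => if b < a then x.2 b else 0)

/-- normal form -/
def NF (x : Nd W) : Prop := ∀ b, x.1 ≤ b → x.2 b = 0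

theorem res_fst (x : Nd W) (a : W) : (res x a).1 = a := rfl

theorem res_snd (x : Nd W) {a b : W} (h : b < a) : (res x a).2 b = x.2 b := by
  simp [res, h]

theorem nf_res (x : Nd W) (a : W) : NF (res x a) := by
  intro b hb
  have hb' : ¬ b < a := not_lt.2 hb
  simp [res, hb']

theorem res_self {x : Nd W} (hx : NF x) : res x x.1 = x := by
  refine Prod.ext rfl ?_
  funext b
  by_cases h : b < x.1
  · simp [res, h]
  · simp only [res, if_neg h]
    exact (hx b (not_lt.1 h)).symm

theorem res_res (x : Nd W) {a b : W} (h : b ≤ a) : res (res x a) b = res x b := by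
  refine Prod.ext rfl ?_
  funext c
  by_cases h1 : c < b
  · simp [res, h1, h1.trans_le h]
  · simp [res, h1]

variable (r : W → W → ℕ)

/-- one step down from the node `x` to the height `a` -/
def St (k : ℕ) (x : Nd W) (a : W) : Prop :=
  a < x.1 ∧ k ≤ x.2 a ∧ ∀ b, a ≤ b → b < x.1 → x.2 a ≤ r b x.1

/-- The basic neighbourhoods of the point `(x, m)`. -/
def Nb : ℕ → Nd W → ℕ → Set (Nd W × ℕ)
  | 0, x, _ => {(x, 0)}
  | m + 1, x, k => {p | p = (x, m + 1) ∨ ∃ a, St r k x a ∧ p ∈ Nb m (res x a) (max k (r a x.1 + 1))}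

variable {r}

theorem mem_Nb_zero {x : Nd W} {k : ℕ} {p : Nd W × ℕ} : p ∈ Nb r 0 x k ↔ p = (x, 0) := Iff.rfl

theorem mem_Nb_succ {m : ℕ} {x : Nd W} {k : ℕ} {p : Nd W × ℕ} :
    p ∈ Nb r (m + 1) x k ↔ p = (x, m + 1) ∨ ∃ a, St r k x a ∧
      p ∈ Nb r m (res x a) (max k (r a x.1 + 1)) := Iff.rfl

theorem self_mem_Nb (m : ℕ) (x : Nd W) (k : ℕ) : (x, m) ∈ Nb r m x k := by
  cases m with
  | zero => exact rfl
  | succ m => exact Or.inl rfl

theorem Nb_mono {m : ℕ} {x : Nd W} {k k' : ℕ} (h : k ≤ k') : Nb r m x k' ⊆ Nb r m x k := by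
  induction m generalizing x k k' with
  | zero => exact subset_rfl
  | succ m ih =>
    rintro p (hp | ⟨a, ha, hp⟩)
    · exact Or.inl hp
    · exact Or.inr ⟨a, ⟨ha.1, h.trans ha.2.1, ha.2.2⟩, ih (max_le_max h le_rfl) hp⟩

theorem Nb_basic {m : ℕ} {x : Nd W} (hx : NF x) {k : ℕ} {p : Nd W × ℕ} (h : p ∈ Nb r m x k) :
    p = (x, m) ∨ (p.1.1 < x.1 ∧ p.2 < m ∧ p.1 = res x p.1.1) := by
  induction m generalizing x k with
  | zero => exact Or.inl h
  | succ m ih =>
    rcases h with h | ⟨a, ha, h⟩
    · exact Or.inl h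
    · right
      rcases ih (nf_res _ _) h with h | ⟨h1, h2, h3⟩
      · subst h
        exact ⟨ha.1, Nat.lt_succ_self m, rfl⟩
      · have h1' : p.1.1 < a := h1
        refine ⟨h1'.trans ha.1, h2.trans (Nat.lt_succ_self m), ?_⟩
        rw [h3, res_res _ h1'.le]
        rfl

theorem Nb_res {m : ℕ} {x : Nd W} (hx : NF x) {k : ℕ} {p : Nd W × ℕ} (h : p ∈ Nb r m x k) :
    p.1.1 ≤ x.1 ∧ p.1 = res x p.1.1 := by
  rcases Nb_basic hx h with h | ⟨h1, _, h3⟩
  · subst h
    exact ⟨le_rfl, (res_self hx).symm⟩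
  · exact ⟨h1.le, h3⟩

theorem Nb_open {m : ℕ} {x : Nd W} {k : ℕ} {p : Nd W × ℕ} (h : p ∈ Nb r m x k) :
    ∃ k', Nb r p.2 p.1 k' ⊆ Nb r m x k := by
  induction m generalizing x k with
  | zero =>
    have h' : p = (x, 0) := h
    subst h'
    exact ⟨k, subset_rfl⟩
  | succ m ih =>
    rcases h with h | ⟨a, ha, h⟩
    · subst h
      exact ⟨k, subset_rfl⟩
    · obtain ⟨k', hk'⟩ := ih h
      exact ⟨k', fun q hq => Or.inr ⟨a, ha, hk' hq⟩⟩

/-- the elements of a small neighbourhood are high -/
theorem Nb_above (hr : Sub r) {m : ℕ} {x : Nd W} {k : ℕ} {p : Nd W × ℕ} {c : W} (hc : c < x.1)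
    (hk : r c x.1 < k) (h : p ∈ Nb r m x k) : p = (x, m) ∨ c < p.1.1 := by
  induction m generalizing x k with
  | zero => exact Or.inl h
  | succ m ih =>
    rcases h with h | ⟨a, ha, h⟩
    · exact Or.inl h
    · right
      have hca : c < a := by
        by_contra hcon
        have h1 := ha.2.2 c (not_lt.1 hcon) hc
        have h2 := ha.2.1
        omega
      have h1 : r c a < max k (r a x.1 + 1) := by
        have := hr.s2 c a x.1 hca ha.1
        omega
      rcases ih (x := res x a) hca h1 h with h | h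
      · subst h
        exact hca
      · exact h

/-- the label at a reached height -/
theorem Nb_label {m : ℕ} {x : Nd W} {k : ℕ} {p : Nd W × ℕ} (h : p ∈ Nb r m x k) :
    p = (x, m) ∨ k ≤ x.2 p.1.1 := by
  induction m generalizing x k with
  | zero => exact Or.inl h
  | succ m ih =>
    rcases h with h | ⟨a, ha, h⟩
    · exact Or.inl h
    · right
      rcases ih h with h1 | h1
      · subst h1
        exact ha.2.1
      · have h2 := Nb_basic (nf_res _ _) h
        rcases h2 with h2 | h2
        · subst h2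
          exact ha.2.1
        · have h3 : p.1.1 < a := h2.1
          rw [res_snd x h3] at h1
          exact (le_max_left _ _).trans h1

/-- passing through a height or jumping over it -/
theorem Nb_jump (hr : Sub r) {m : ℕ} {x : Nd W} {k : ℕ} {p : Nd W × ℕ} {b : W}
    (hb : b < x.1) (hpb : p.1.1 < b) (h : p ∈ Nb r m x k) :
    (∃ u, (res x b, u) ∈ Nb r m x k ∧ ∃ K, p ∈ Nb r u (res x b) K) ∨
    ∃ f c u K, c < b ∧ b < f ∧ f ≤ x.1 ∧ (∀ ζ, c ≤ ζ → ζ < f → x.2 c ≤ r ζ f) ∧ k ≤ x.2 c ∧
      (f = x.1 ∨ r f x.1 < x.2 c) ∧ r c f < K ∧ p ∈ Nb r u (res x c) K := by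
  induction m generalizing x k with
  | zero =>
    have h' : p = (x, 0) := h
    subst h'
    exact absurd (hpb.trans hb) (lt_irrefl _)
  | succ m ih =>
    rcases h with h | ⟨a, ha, h⟩
    · subst h
      exact absurd (hpb.trans hb) (lt_irrefl _)
    · rcases lt_trichotomy a b with hab | hab | hab
      · right
        refine ⟨x.1, a, m, _, hab, hb, le_rfl, ha.2.2, ha.2.1, Or.inl rfl, ?_, h⟩
        exact (Nat.lt_succ_self _).trans_le (le_max_right _ _)
      · subst hab
        left
        exact ⟨m, Or.inr ⟨a, ha, self_mem_Nb _ _ _⟩, _, h⟩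
      · rcases ih (x := res x a) hab h with ⟨u, hu, K, hK⟩ | ⟨f, c, u, K, h1, h2, h3, h4, h5, h6, h7, h8⟩
        · left
          rw [res_res x hab.le] at hu hK
          exact ⟨u, Or.inr ⟨a, ha, hu⟩, K, hK⟩
        · right
          have h3' : f ≤ a := h3
          have hca : c < a := h1.trans hab
          rw [res_snd x hca] at h4 h5 h6
          rw [res_res x hca.le] at h8
          refine ⟨f, c, u, K, h1, h2, h3'.trans ha.1.le, h4, (le_max_left _ _).trans h5, ?_, h7, h8⟩
          right
          have h9 : r a x.1 < x.2 c := by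
            have := le_max_right k (r a x.1 + 1)
            omega
          rcases h3'.lt_or_eq with hfa | hfa
          · rcases h6 with h6 | h6
            · have h6' : f = a := h6
              rw [h6']
              exact h9
            · have h6' : r f a < x.2 c := h6
              exact (hr.s1 f a x.1 hfa ha.1).trans_lt (max_lt h6' h9)
          · rw [hfa]
            exact h9

end Pool.Agent.TH785.SD
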