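import Mathlib
import Pool.Agent.TH785.SD.Nbd

/-!
# The basic neighbourhoods are clopen
-/

set_option autoImplicit false

namespace Pool.Agent.TH785.SD

open Set

variable {W : Type} [LinearOrder W] {r : W → W → ℕ}

theorem Nb_disj (hr : Sub r) [WellFoundedLT W] (x : Nd W) (a : W) : ∀ (b e : W) (p q K1 K2 : ℕ),
    b < a → a < e → x.2 b ≤ r a e → r b e < K1 → r a e < K2 →
    Disjoint (Nb r p (res x a) K2) (Nb r q (res x b) K1) := by
  induction a using WellFoundedLT.induction with
  | ind a ih =>
    intro b e p q K1 K2 hba hae hlab hK1 hK2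
    rw [Set.disjoint_left]
    intro z hz1 hz2
    have hbnot : ∀ u, (res x b, u) ∉ Nb r p (res x a) K2 := by
      intro u hu
      rcases Nb_label hu with h | h
      · have h1 : b = a := congrArg (fun t : Nd W × ℕ => t.1.1) h
        exact hba.ne h1
      · have h1 : K2 ≤ (res x a).2 b := h
        rw [res_snd x hba] at h1
        omega
    have hzb := Nb_res (nf_res x b) hz2
    have hzb1 : z.1.1 ≤ b := hzb.1
    rcases hzb1.lt_or_eq with hlt | heq
    · rcases Nb_jump hr (x := res x a) hba hlt hz1 with ⟨u, hu, -⟩ | ⟨f, c, u, K, h1, h2, h3, h4, h5, h6, h7, h8⟩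
      · rw [res_res x hba.le] at hu
        exact hbnot u hu
      · have h3' : f ≤ a := h3
        have hca : c < a := h1.trans hba
        rw [res_snd x hca] at h4 h5 h6
        rw [res_res x hca.le] at h8
        have hfe : f < e := h3'.trans_lt hae
        have h9 : r f e < x.2 c := by
          have h10 : r a e < x.2 c := hK2.trans_le h5
          rcases h3'.lt_or_eq with h | h
          · rcases h6 with h6 | h6
            · have h6' : f = a := h6
              rw [h6']
              exact h10
            · have h6' : r f a < x.2 c := h6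
              exact (hr.s1 f a e h hae).trans_lt (max_lt h6' h10)
          · rw [h]
            exact h10
        have h10 : x.2 c ≤ r b f := h4 b h1.le h2
        have h11 : r b f ≤ max (r b e) (r f e) := hr.s2 b f e h2 hfe
        have h12 : r b f < K1 := by omega
        have h13 := ih b hba c f q u K K1 h1 h2 h10 h7 h12
        exact Set.disjoint_left.1 h13 hz2 h8
    · have h1 : z = (res x b, z.2) := by
        refine Prod.ext ?_ rfl
        have h2 := hzb.2
        rw [heq, res_res x le_rfl] at h2
        exact h2
      rw [h1] at hz1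
      exact hbnot _ hz1

/-- Neighbourhoods of points with the same node in different layers are disjoint. -/
theorem Nb_layers (hr : Sub r) [WellFoundedLT W] {m m' : ℕ} (hm : m ≠ m') {x : Nd W} (hx : NF x)
    (k k' : ℕ) : Disjoint (Nb r m x k) (Nb r m' x k') := by
  induction m generalizing x m' k k' with
  | zero =>
    rw [Set.disjoint_left]
    intro z hz1 hz2
    have hz1' : z = (x, 0) := hz1
    rcases Nb_basic hx hz2 with h | h
    · rw [hz1'] at h
      exact hm (congrArg Prod.snd h)
    · rw [hz1'] at h
      exact lt_irrefl _ h.1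
  | succ m ih =>
    rw [Set.disjoint_left]
    intro z hz1 hz2
    cases m' with
    | zero =>
      have hz2' : z = (x, 0) := hz2
      rcases Nb_basic hx hz1 with h | h
      · rw [hz2'] at h
        exact absurd (congrArg Prod.snd h) (by simp)
      · rw [hz2'] at h
        exact lt_irrefl _ h.1
    | succ m' =>
      rcases hz1 with hz1 | ⟨a, ha, hz1⟩
      · rcases Nb_basic hx hz2 with h | h
        · rw [hz1] at h
          exact hm (congrArg Prod.snd h)
        · rw [hz1] at h
          exact lt_irrefl _ h.1
      rcases hz2 with hz2 | ⟨b, hb, hz2⟩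
      · have h := Nb_basic (nf_res _ _) hz1
        rcases h with h | h
        · rw [hz2] at h
          have h1 : x.1 = a := congrArg (fun t : Nd W × ℕ => t.1.1) h
          exact ha.1.ne h1.symm
        · rw [hz2] at h
          exact lt_irrefl _ (h.1.trans ha.1)
      rcases lt_trichotomy a b with hab | hab | hab
      · have h1 := Nb_disj hr x b a x.1 m' m (max k (r a x.1 + 1)) (max k' (r b x.1 + 1)) hab hb.1
          (ha.2.2 b hab.le hb.1) (by omega) (by omega)
        exact Set.disjoint_left.1 h1 hz2 hz1
      · subst hab
        exact Set.disjoint_left.1 (ih (m' := m') (fun h => hm (by rw [h])) (nf_res _ _) _ _) hz1 hz2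
      · have h1 := Nb_disj hr x a b x.1 m m' (max k' (r b x.1 + 1)) (max k (r a x.1 + 1)) hab ha.1
          (hb.2.2 a hab.le ha.1) (by omega) (by omega)
        exact Set.disjoint_left.1 h1 hz1 hz2

/-- The neighbourhoods are closed. -/
theorem Nb_closed (hr : Sub r) [WellFoundedLT W] {m j : ℕ} {x w : Nd W} (hx : NF x) (hw : NF w)
    {k : ℕ} (h : (w, j) ∉ Nb r m x k) : ∃ k', Disjoint (Nb r j w k') (Nb r m x k) := by
  rcases lt_or_ge x.1 w.1 with hlt | hge
  · refine ⟨r x.1 w.1 + 1, ?_⟩
    rw [Set.disjoint_left]
    intro z hz1 hz2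
    rcases Nb_above hr hlt (Nat.lt_succ_self _) hz1 with h1 | h1
    · subst h1
      exact h hz2
    · exact absurd (Nb_res hx hz2).1 (not_le.2 h1)
  by_cases hwx : w = res x w.1
  · rcases hge.lt_or_eq with hlt | heq
    · refine ⟨r w.1 x.1 + 1, ?_⟩
      rw [Set.disjoint_left]
      intro z hz1 hz2
      rcases Nb_basic hw hz1 with h1 | h1
      · subst h1
        exact h hz2
      rcases Nb_jump hr hlt h1.1 hz2 with ⟨u, hu, K, hK⟩ | ⟨f, c, u, K, h1, h2, h3, h4, h5, h6, h7, h8⟩
      · rw [← hwx] at hu hK
        by_cases huj : j = u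
        · subst huj
          exact h hu
        · exact Set.disjoint_left.1 (Nb_layers hr huj hw _ _) hz1 hK
      · have h10 : x.2 c ≤ r w.1 f := h4 w.1 h1.le h2
        have h11 : r w.1 f < r w.1 x.1 + 1 := by
          rcases h6 with h6 | h6
          · rw [h6]
            exact Nat.lt_succ_self _
          · rcases h3.lt_or_eq with h12 | h12
            · have := hr.s2 w.1 f x.1 h2 h12
              omega
            · rw [h12]
              exact Nat.lt_succ_self _
        have h12 := Nb_disj hr x w.1 c f j u K (r w.1 x.1 + 1) h1 h2 h10 h7 h11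
        rw [← hwx] at h12
        exact Set.disjoint_left.1 h12 hz1 h8
    · have h1 : w = x := by
        rw [hwx, heq, res_self hx]
      subst h1
      have hjm : j ≠ m := by
        intro hjm
        subst hjm
        exact h (self_mem_Nb _ _ _)
      exact ⟨0, Nb_layers hr hjm hw _ _⟩
  · have h1 : ∃ a, a < w.1 ∧ w.2 a ≠ x.2 a := by
      by_contra hcon
      push Not at hcon
      apply hwx
      refine Prod.ext rfl ?_
      funext b
      by_cases hb : b < w.1
      · rw [res_snd x hb]
        exact hcon b hb
      · simp only [res, if_neg hb]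
        exact hw b (not_lt.1 hb)
    obtain ⟨a, ha1, ha2⟩ := h1
    refine ⟨r a w.1 + 1, ?_⟩
    rw [Set.disjoint_left]
    intro z hz1 hz2
    rcases Nb_above hr ha1 (Nat.lt_succ_self _) hz1 with h1 | h1
    · subst h1
      exact h hz2
    · apply ha2
      have h2 := (Nb_res hw hz1).2
      have h3 := (Nb_res hx hz2).2
      have h4 : z.1.2 a = w.2 a := by
        rw [h2, res_snd w h1]
      have h5 : z.1.2 a = x.2 a := by
        rw [h3, res_snd x h1]
      rw [← h4, h5]

end Pool.Agent.TH785.SD
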