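import Mathlib
import Pool.Agent.TH785.SD.Disj

/-!
# The space on a tree times the natural numbers: basic properties
-/

set_option autoImplicit false

namespace Pool.Agent.TH785.SD

open Set Topology

variable {W : Type} [LinearOrder W]

/-- the underlying set of the space -/
def Sp (_r : W → W → ℕ) (T : Set (Nd W)) : Type := {p : Nd W × ℕ // p.1 ∈ T}

variable {r : W → W → ℕ} {T : Set (Nd W)}

/-- basic neighbourhoods in the space -/
def nb (p : Sp r T) (k : ℕ) : Set (Sp r T) := {q | q.1 ∈ Nb r p.1.2 p.1.1 k}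

theorem self_mem_nb (p : Sp r T) (k : ℕ) : p ∈ nb p k := self_mem_Nb _ _ _

theorem nb_mono (p : Sp r T) {k k' : ℕ} (h : k ≤ k') : nb p k' ⊆ nb p k :=
  fun _ hq => Nb_mono h hq

instance instTop : TopologicalSpace (Sp r T) where
  IsOpen U := ∀ p ∈ U, ∃ k, nb p k ⊆ U
  isOpen_univ := fun p _ => ⟨0, subset_univ _⟩
  isOpen_inter := by
    rintro U V hU hV p ⟨hp1, hp2⟩
    obtain ⟨k1, h1⟩ := hU p hp1
    obtain ⟨k2, h2⟩ := hV p hp2
    exact ⟨max k1 k2, subset_inter ((nb_mono p (le_max_left _ _)).trans h1)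
      ((nb_mono p (le_max_right _ _)).trans h2)⟩
  isOpen_sUnion := by
    rintro S hS p ⟨U, hU, hp⟩
    obtain ⟨k, hk⟩ := hS U hU p hp
    exact ⟨k, hk.trans (subset_sUnion_of_mem hU)⟩

theorem isOpen_iff {U : Set (Sp r T)} : IsOpen U ↔ ∀ p ∈ U, ∃ k, nb p k ⊆ U := Iff.rfl

theorem isOpen_nb (p : Sp r T) (k : ℕ) : IsOpen (nb p k) := by
  rw [isOpen_iff]
  intro q hq
  obtain ⟨k', hk'⟩ := Nb_open hq
  exact ⟨k', fun z hz => hk' hz⟩

theorem basis_nhds (p : Sp r T) : (𝓝 p).HasBasis (fun _ : ℕ => True) (nb p) := by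
  refine ⟨fun U => ?_⟩
  rw [mem_nhds_iff]
  constructor
  · rintro ⟨V, hV1, hV2, hV3⟩
    obtain ⟨k, hk⟩ := isOpen_iff.1 hV2 p hV3
    exact ⟨k, trivial, hk.trans hV1⟩
  · rintro ⟨k, -, hk⟩
    exact ⟨nb p k, hk, isOpen_nb p k, self_mem_nb p k⟩

theorem isClosed_nb [WellFoundedLT W] (hr : Sub r) (hT : ∀ x ∈ T, NF x) (p : Sp r T) (k : ℕ) :
    IsClosed (nb p k) := by
  rw [← isOpen_compl_iff, isOpen_iff]
  intro q hq
  obtain ⟨k', hk'⟩ := Nb_closed hr (hT _ p.2) (hT _ q.2) (j := q.1.2) (w := q.1.1) (k := k)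
    (m := p.1.2) (x := p.1.1) hq
  exact ⟨k', fun z hz hz' => Set.disjoint_left.1 hk' hz hz'⟩

theorem t2 [WellFoundedLT W] (hr : Sub r) (hT : ∀ x ∈ T, NF x) : T2Space (Sp r T) := by
  have key : ∀ p q : Sp r T, p ≠ q → p.1.1.1 ≤ q.1.1.1 → ∃ u v : Set (Sp r T), IsOpen u ∧ IsOpen v ∧
      p ∈ u ∧ q ∈ v ∧ Disjoint u v := by
    intro p q hpq hle
    have h1 : ∃ k, p ∉ nb q k := by
      rcases hle.lt_or_eq with hlt | heq
      · refine ⟨r p.1.1.1 q.1.1.1 + 1, fun hcon => ?_⟩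
        rcases Nb_above hr hlt (Nat.lt_succ_self _) hcon with h | h
        · exact hpq (Subtype.ext h)
        · exact lt_irrefl _ h
      · refine ⟨0, fun hcon => ?_⟩
        rcases Nb_basic (hT _ q.2) hcon with h | h
        · exact hpq (Subtype.ext h)
        · exact (heq ▸ h.1).false
    obtain ⟨k, hk⟩ := h1
    exact ⟨(nb q k)ᶜ, nb q k, (isClosed_nb hr hT q k).isOpen_compl, isOpen_nb q k, hk,
      self_mem_nb q k, disjoint_compl_left⟩
  constructor
  intro p q hpq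
  rcases le_total p.1.1.1 q.1.1.1 with h | h
  · exact key p q hpq h
  · obtain ⟨u, v, h1, h2, h3, h4, h5⟩ := key q p hpq.symm h
    exact ⟨v, u, h2, h1, h4, h3, h5.symm⟩

theorem firstCountable : FirstCountableTopology (Sp r T) :=
  ⟨fun p => (basis_nhds p).isCountablyGenerated⟩

/-- the points of height at most `a` -/
def low (r : W → W → ℕ) (T : Set (Nd W)) (a : W) : Set (Sp r T) := {p | p.1.1.1 ≤ a}

theorem nb_sub_low (hT : ∀ x ∈ T, NF x) (p : Sp r T) (k : ℕ) {a : W} (h : p ∈ low r T a) :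
    nb p k ⊆ low r T a := fun _ hq => (Nb_res (hT _ p.2) hq).1.trans h

theorem isOpen_low (hT : ∀ x ∈ T, NF x) (a : W) : IsOpen (low r T a) := by
  rw [isOpen_iff]
  exact fun p hp => ⟨0, nb_sub_low hT p 0 hp⟩

theorem isClosed_low (hr : Sub r) (a : W) : IsClosed (low r T a) := by
  rw [← isOpen_compl_iff, isOpen_iff]
  intro p hp
  have hp' : a < p.1.1.1 := not_le.1 hp
  refine ⟨r a p.1.1.1 + 1, fun q hq => ?_⟩
  rcases Nb_above hr hp' (Nat.lt_succ_self _) hq with h | h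
  · have : q = p := Subtype.ext h
    rw [this]
    exact hp
  · exact not_le.2 h

theorem countable_low (hc : ∀ a : W, (Set.Iio a).Countable)
    (hcnt : ∀ a, {x | x ∈ T ∧ x.1 = a}.Countable) (a : W) : (low r T a).Countable := by
  have h1 : (Set.Iic a).Countable := by
    rw [← Iio_insert]
    exact (hc a).insert a
  have h2 : {x | x ∈ T ∧ x.1 ≤ a}.Countable := by
    refine (h1.biUnion fun b _ => hcnt b).mono ?_
    rintro x ⟨hx1, hx2⟩
    simp only [mem_iUnion]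
    exact ⟨x.1, hx2, hx1, rfl⟩
  have h3 : ({x | x ∈ T ∧ x.1 ≤ a} ×ˢ (univ : Set ℕ)).Countable := h2.prod countable_univ
  have h4 : (low r T a) ⊆ (fun p : Sp r T => p.1) ⁻¹' ({x | x ∈ T ∧ x.1 ≤ a} ×ˢ (univ : Set ℕ)) := by
    intro p hp
    exact ⟨⟨p.2, hp⟩, mem_univ _⟩
  exact (h3.preimage (Subtype.val_injective)).mono h4

/-- Layers. -/
theorem isOpen_layer (hT : ∀ x ∈ T, NF x) (n : ℕ) : IsOpen {p : Sp r T | p.1.2 ≤ n} := by
  rw [isOpen_iff]
  intro p hp
  refine ⟨0, fun q hq => ?_⟩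
  rcases Nb_basic (hT _ p.2) hq with h | h
  · have h1 : q = p := Subtype.ext h
    rw [h1]
    exact hp
  · exact h.2.1.le.trans hp

end Pool.Agent.TH785.SD
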