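import Mathlib
import Pool.Agent.TH785.SD.Space

/-!
# Souslin trees and the guessing property of the space
-/

set_option autoImplicit false

namespace Pool.Agent.TH785.SD

open Set Topology

variable {W : Type} [LinearOrder W]

/-- `s` is an initial segment of `x` -/
def Le (s x : Nd W) : Prop := s.1 ≤ x.1 ∧ res x s.1 = s

/-- a normalised Souslin tree of nodes -/
structure IsTree (T : Set (Nd W)) : Prop where
  nf : ∀ x ∈ T, NF x
  rst : ∀ x ∈ T, ∀ a, a ≤ x.1 → res x a ∈ T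
  ext : ∀ x ∈ T, ∀ a, x.1 ≤ a → ∃ y ∈ T, y.1 = a ∧ Le x y
  lab : ∀ x ∈ T, ∀ l, ∃ y ∈ T, x.1 < y.1 ∧ Le x y ∧ y.2 x.1 = l
  cnt : ∀ a, {x | x ∈ T ∧ x.1 = a}.Countable
  sus : ∀ A ⊆ T, ∃ c, ∀ x ∈ T, x.1 = c → (∃ s ∈ A, Le s x) ∨ (∀ s ∈ A, ¬ Le x s)
  ne : T.Nonempty

theorem Le.refl {x : Nd W} (hx : NF x) : Le x x := ⟨le_rfl, res_self hx⟩

theorem Le.trans {x y z : Nd W} (h1 : Le x y) (h2 : Le y z) : Le x z := by
  refine ⟨h1.1.trans h2.1, ?_⟩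
  rw [← res_res z h1.1, h2.2, h1.2]

theorem Le.of_le {x y z : Nd W} (h1 : Le x z) (h2 : Le y z) (h : x.1 ≤ y.1) : Le x y := by
  refine ⟨h, ?_⟩
  rw [← h2.2, res_res z h, h1.2]

theorem Le.res_le {x : Nd W} {a : W} (h : a ≤ x.1) : Le (res x a) x := ⟨h, rfl⟩

/-- bounds of countable sequences -/
structure IsOm (W : Type) [LinearOrder W] : Prop where
  hc : ∀ a : W, (Set.Iio a).Countable
  hu : ¬ (univ : Set W).Countable

theorem IsOm.cIic (h : IsOm W) (a : W) : (Set.Iic a).Countable := by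
  rw [← Iio_insert]
  exact (h.hc a).insert a

theorem IsOm.bdd (h : IsOm W) {S : Set W} (hS : S.Countable) : ∃ b, ∀ a ∈ S, a < b := by
  by_contra hcon
  push Not at hcon
  apply h.hu
  refine (hS.biUnion fun a _ => h.cIic a).mono ?_
  intro b _
  obtain ⟨a, ha, hab⟩ := hcon b
  exact mem_iUnion₂.2 ⟨a, ha, hab⟩

theorem IsOm.bddN (h : IsOm W) (f : ℕ → W) : ∃ b, ∀ n, f n < b := by
  obtain ⟨b, hb⟩ := h.bdd (countable_range f)
  exact ⟨b, fun n => hb _ ⟨n, rfl⟩⟩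

theorem IsOm.lub (h : IsOm W) [WellFoundedLT W] (f : ℕ → W) :
    ∃ b, (∀ n, f n < b) ∧ ∀ a < b, ∃ n, a ≤ f n := by
  have hne : {b | ∀ n, f n < b}.Nonempty := h.bddN f
  refine ⟨WellFounded.min wellFounded_lt _ hne, WellFounded.min_mem _ _ hne, fun a ha => ?_⟩
  by_contra hcon
  push Not at hcon
  exact WellFounded.not_lt_min wellFounded_lt {b | ∀ n, f n < b} hcon ha

/-- closed under a function -/
def Cl (h : W → W) : Set W := {c | ∀ d < c, h d ≤ c}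

/-- limits of closed ones -/
def Acc (h : W → W) : Set W := {l | (∃ c, c < l) ∧ ∀ c < l, ∃ d ∈ Cl h, c < d ∧ d < l}

theorem IsOm.exists_Cl (hW : IsOm W) [WellFoundedLT W] (h : W → W) (b : W) : ∃ c ∈ Cl h, b < c := by
  have h1 : ∀ a, ∃ g, a < g ∧ ∀ d ≤ a, h d < g := by
    intro a
    obtain ⟨g, hg⟩ := hW.bdd (((hW.cIic a).image h).union (countable_singleton a))
    exact ⟨g, hg a (Or.inr rfl), fun d hd => hg _ (Or.inl ⟨d, hd, rfl⟩)⟩
  choose g hg1 hg2 using h1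
  let f : ℕ → W := fun n => g^[n] b
  obtain ⟨c, hc1, hc2⟩ := hW.lub f
  refine ⟨c, fun d hd => ?_, hc1 0⟩
  obtain ⟨n, hn⟩ := hc2 d hd
  have h2 := hg2 (f n) d hn
  have h3 := hc1 (n + 1)
  simp only [f, Function.iterate_succ_apply'] at h3
  exact (h2.trans h3).le

theorem IsOm.exists_Acc (hW : IsOm W) [WellFoundedLT W] (h : W → W) (b : W) :
    ∃ l ∈ Acc h, b < l := by
  choose g hg1 hg2 using fun b => hW.exists_Cl h b
  let f : ℕ → W := fun n => g^[n] b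
  obtain ⟨c, hc1, hc2⟩ := hW.lub f
  refine ⟨c, ⟨⟨b, hc1 0⟩, fun d hd => ?_⟩, hc1 0⟩
  obtain ⟨n, hn⟩ := hc2 d hd
  refine ⟨f (n + 1), ?_, ?_, hc1 _⟩
  · simp only [f, Function.iterate_succ_apply']
    exact hg1 _
  · simp only [f, Function.iterate_succ_apply']
    exact hn.trans_lt (hg2 _)

theorem Acc_mono {h h' : W → W} (hh : ∀ d, h d ≤ h' d) : Acc h' ⊆ Acc h := by
  rintro l ⟨h1, h2⟩
  refine ⟨h1, fun c hc => ?_⟩
  obtain ⟨d, hd1, hd2⟩ := h2 c hc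
  exact ⟨d, fun e he => (hh e).trans (hd1 e he), hd2⟩

variable {T : Set (Nd W)}

/-- `A` meets every cone above `t` -/
def Dense' (T A : Set (Nd W)) (t : Nd W) : Prop := ∀ y ∈ T, Le t y → ∃ s ∈ A, Le y s

theorem IsTree.seal (hT : IsTree T) {A : Set (Nd W)} (hA : A ⊆ T) {t : Nd W} (ht : t ∈ T)
    (hd : Dense' T A t) : ∃ c, ∀ x ∈ T, c ≤ x.1 → Le t x → ∃ s ∈ A, Le s x ∧ s.1 ≤ c := by
  obtain ⟨c, hc⟩ := hT.sus A hA
  refine ⟨max c t.1, fun x hx hcx htx => ?_⟩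
  have hcx1 : c ≤ x.1 := (le_max_left _ _).trans hcx
  have hx' : res x c ∈ T := hT.rst x hx c hcx1
  have hxx : Le (res x c) x := Le.res_le hcx1
  rcases hc _ hx' rfl with ⟨s, hs1, hs2⟩ | h
  · exact ⟨s, hs1, hs2.trans hxx, hs2.1.trans (le_max_left _ _)⟩
  · exfalso
    rcases le_total t.1 c with h1 | h1
    · obtain ⟨s, hs1, hs2⟩ := hd _ hx' (htx.of_le hxx h1)
      exact h s hs1 hs2
    · have h2 : Le (res x c) t := hxx.of_le htx h1
      obtain ⟨s, hs1, hs2⟩ := hd t ht (Le.refl (hT.nf t ht))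
      exact h s hs1 (h2.trans hs2)

theorem IsTree.ext_gt (hT : IsTree T) (hW : IsOm W) {x : Nd W} (hx : x ∈ T) (a : W) :
    ∃ y ∈ T, Le x y ∧ a < y.1 := by
  obtain ⟨b, hb⟩ := hW.bdd (S := {a, x.1}) (by simp)
  obtain ⟨y, hy1, hy2, hy3⟩ := hT.ext x hx b (hb x.1 (by simp)).le
  exact ⟨y, hy1, hy3, by rw [hy2]; exact hb a (by simp)⟩

theorem IsTree.exists_h (hT : IsTree T) (hW : IsOm W) {A : Set (Nd W)} (hA : A ⊆ T) {t : Nd W}
    (ht : t ∈ T) (hd : Dense' T A t) : ∃ h : W → W, ∀ d, ∀ x ∈ T, h d ≤ x.1 → Le t x → ∀ l,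
      ∃ a, d < a ∧ a < h d ∧ res x a ∈ A ∧ x.2 a = l := by
  have h1 : ∀ d : W, ∀ l : ℕ, ∃ c, ∀ x ∈ T, c ≤ x.1 → Le t x →
      ∃ a, d < a ∧ a < c ∧ res x a ∈ A ∧ x.2 a = l := by
    intro d l
    let B : Set (Nd W) := {y | y ∈ T ∧ ∃ a, a < y.1 ∧ d < a ∧ res y a ∈ A ∧ y.2 a = l}
    have hB : Dense' T B t := by
      intro y hy hty
      obtain ⟨y', hy'1, hy'2, hy'3⟩ := hT.ext_gt hW hy d
      obtain ⟨s, hs1, hs2⟩ := hd y' hy'1 (hty.trans hy'2)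
      obtain ⟨z, hz1, hz2, hz3, hz4⟩ := hT.lab s (hA hs1) l
      refine ⟨z, ⟨hz1, s.1, hz2, hy'3.trans_le hs2.1, ?_, hz4⟩, (hy'2.trans hs2).trans hz3⟩
      rw [hz3.2]
      exact hs1
    obtain ⟨c, hc⟩ := hT.seal (fun y hy => hy.1) ht hB
    refine ⟨c, fun x hx hcx htx => ?_⟩
    obtain ⟨s, ⟨hs1, a, ha1, ha2, ha3, ha4⟩, hs2, hs3⟩ := hc x hx hcx htx
    refine ⟨a, ha2, ha1.trans_le hs3, ?_, ?_⟩
    · rw [← hs2.2, res_res _ ha1.le] at ha3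
      exact ha3
    · rw [← hs2.2, res_snd _ ha1] at ha4
      exact ha4
  choose c hc using h1
  choose h hh using fun d => hW.bddN (c d)
  refine ⟨h, fun d x hx hdx htx l => ?_⟩
  obtain ⟨a, h1, h2, h3, h4⟩ := hc d l x hx ((hh d l).le.trans hdx) htx
  exact ⟨a, h1, h2.trans (hh d l), h3, h4⟩

theorem guess {r : W → W → ℕ} (hr : Sub r) {A : Set (Nd W)} {t : Nd W} {h : W → W}
    (hh : ∀ d, ∀ x ∈ T, h d ≤ x.1 → Le t x → ∀ l, ∃ a, d < a ∧ a < h d ∧ res x a ∈ A ∧ x.2 a = l)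
    {w : Nd W} (hw : w ∈ T) (htw : Le t w) (hacc : w.1 ∈ Acc h) (k : ℕ) :
    ∃ a, St r k w a ∧ res w a ∈ A := by
  classical
  obtain ⟨⟨c0, hc0⟩, hacc⟩ := hacc
  -- an upper bound of the finite set
  have hb : ∀ S : Set W, S.Finite → (∀ a ∈ S, a < w.1) → ∃ m, m < w.1 ∧ ∀ a ∈ S, a ≤ m := by
    intro S hS hSw
    obtain ⟨m, hm1, hm2⟩ := (hS.insert c0).exists_maximalFor id (insert c0 S) (insert_nonempty _ _)
    refine ⟨m, ?_, fun a ha => ?_⟩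
    · rcases hm1 with h | h
      · rw [h]; exact hc0
      · exact hSw m h
    · rcases le_total a m with h | h
      · exact h
      · exact hm2 (mem_insert_of_mem _ ha) h
  obtain ⟨m, hm1, hm2⟩ := hb _ (hr.fin w.1 k) (fun a ha => ha.1)
  obtain ⟨c, hc1, hc2, hc3⟩ := hacc m hm1
  let V : Set ℕ := {n | ∃ z, c ≤ z ∧ z < w.1 ∧ r z w.1 = n}
  have hV : V.Nonempty := ⟨_, c, le_rfl, hc3, rfl⟩
  let l := sInf V
  obtain ⟨z0, hz1, hz2, hz3⟩ : l ∈ V := Nat.sInf_mem hV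
  have hl : ∀ z, c ≤ z → z < w.1 → l ≤ r z w.1 := fun z h1 h2 => Nat.sInf_le ⟨z, h1, h2, rfl⟩
  have hkl : k ≤ l := by
    by_contra hcon
    have h1 : z0 ≤ m := hm2 z0 ⟨hz2, by omega⟩
    exact absurd (hc2.trans_le hz1) (not_lt.2 h1)
  -- the finite set of the small ones below `c`
  have hf : ({b | b < c ∧ r b w.1 < l}).Finite :=
    (hr.fin w.1 l).subset fun b hb => ⟨hb.1.trans hc3, hb.2.le⟩
  have hd : ∃ d, d < c ∧ ∀ b, b < c → r b w.1 < l → b ≤ d := by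
    obtain ⟨d, hd1, hd2⟩ := (hf.insert m).exists_maximalFor id _ (insert_nonempty _ _)
    refine ⟨d, ?_, fun b hb1 hb2 => ?_⟩
    · rcases hd1 with h | h
      · rw [h]; exact hc2
      · exact h.1
    · rcases le_total b d with h | h
      · exact h
      · exact hd2 (mem_insert_of_mem _ (show b ∈ {b | b < c ∧ r b w.1 < l} from ⟨hb1, hb2⟩)) h
  obtain ⟨d, hd1, hd2⟩ := hd
  have hhd : h d ≤ c := hc1 d hd1
  obtain ⟨a, ha1, ha2, ha3, ha4⟩ := hh d w hw (hhd.trans hc3.le) htw l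
  have hac : a < c := ha2.trans_le hhd
  refine ⟨a, ⟨hac.trans hc3, by rw [ha4]; exact hkl, fun b hb1 hb2 => ?_⟩, ha3⟩
  rw [ha4]
  rcases lt_or_ge b c with hbc | hbc
  · by_contra hcon
    have h1 := hd2 b hbc (not_le.1 hcon)
    exact absurd (ha1.trans_le hb1) (not_lt.2 h1)
  · exact hl b hbc hb2

end Pool.Agent.TH785.SD
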