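import Mathlib
import Pool.Agent.TH785.SD.Guess

/-!
# The space is a first countable, locally countable Dowker space
-/

set_option autoImplicit false

namespace Pool.Agent.TH785.SD

open Set Topology

variable {W : Type} [LinearOrder W] {r : W → W → ℕ} {T : Set (Nd W)}

/-- Countable paracompactness: every countable open cover has a locally finite open refinement
(again a cover). -/
def CountablyParacompact (X : Type) [TopologicalSpace X] : Prop :=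
  ∀ U : ℕ → Set X, (∀ n, IsOpen (U n)) → (⋃ n, U n) = Set.univ →
    ∃ (ι : Type) (V : ι → Set X), (∀ i, IsOpen (V i)) ∧ (⋃ i, V i) = Set.univ ∧
      LocallyFinite V ∧ ∀ i, ∃ n, V i ⊆ U n

/-- the `m`-th layer of a subset of the space -/
def lay (H : Set (Sp r T)) (m : ℕ) : Set (Nd W) := {w | ∃ h : w ∈ T, (⟨(w, m), h⟩ : Sp r T) ∈ H}

theorem lay_sub (H : Set (Sp r T)) (m : ℕ) : lay H m ⊆ T := fun _ h => h.1

theorem mem_lay (H : Set (Sp r T)) {p : Sp r T} (h : p ∈ H) : p.1.1 ∈ lay H p.1.2 := ⟨p.2, h⟩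

theorem Dense'.mono {A : Set (Nd W)} {t t' : Nd W} (h : Dense' T A t) (ht : Le t t') :
    Dense' T A t' := fun y hy hty => h y hy (ht.trans hty)

variable [WellFoundedLT W]

theorem big_succ (hr : Sub r) (hW : IsOm W) (hT : IsTree T) {H : Set (Sp r T)} (hH : IsClosed H)
    {m : ℕ} {t : Nd W} (ht : t ∈ T) (hd : Dense' T (lay H m) t) :
    ∃ h : W → W, ∀ w ∈ T, Le t w → w.1 ∈ Acc h → w ∈ lay H (m + 1) := by
  obtain ⟨h, hh⟩ := hT.exists_h hW (lay_sub H m) ht hd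
  refine ⟨h, fun w hw htw hacc => ⟨hw, ?_⟩⟩
  by_contra hcon
  obtain ⟨k, hk⟩ := isOpen_iff.1 hH.isOpen_compl _ hcon
  obtain ⟨a, ha1, ha2⟩ := guess hr hh hw htw hacc k
  obtain ⟨ha3, ha4⟩ := ha2
  refine hk (a := ⟨(res w a, m), ha3⟩) ?_ ha4
  show (res w a, m) ∈ Nb r (m + 1) w k
  exact Or.inr ⟨a, ha1, self_mem_Nb _ _ _⟩

theorem dense_of_big (hW : IsOm W) (hT : IsTree T) {A : Set (Nd W)} {t : Nd W} {h : W → W}
    (hh : ∀ w ∈ T, Le t w → w.1 ∈ Acc h → w ∈ A) : Dense' T A t := by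
  intro y hy hty
  obtain ⟨l, hl1, hl2⟩ := hW.exists_Acc h y.1
  obtain ⟨w, hw1, hw2, hw3⟩ := hT.ext y hy l hl2.le
  exact ⟨w, hh w hw1 (hty.trans hw3) (by rw [hw2]; exact hl1), hw3⟩

theorem big_all (hr : Sub r) (hW : IsOm W) (hT : IsTree T) {H : Set (Sp r T)} (hH : IsClosed H)
    {m : ℕ} {t : Nd W} (ht : t ∈ T) (hd : Dense' T (lay H m) t) (i : ℕ) :
    ∃ h : W → W, ∀ w ∈ T, Le t w → w.1 ∈ Acc h → w ∈ lay H (m + 1 + i) := by
  induction i with
  | zero => exact big_succ hr hW hT hH ht hd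
  | succ i ih =>
    obtain ⟨h, hh⟩ := ih
    exact big_succ hr hW hT hH ht (dense_of_big hW hT hh)

theorem big_both (hr : Sub r) (hW : IsOm W) (hT : IsTree T) {H K : Set (Sp r T)} (hH : IsClosed H)
    (hK : IsClosed K) {m n : ℕ} {t : Nd W} (ht : t ∈ T) (hd : Dense' T (lay H m) t)
    (hd' : Dense' T (lay K n) t) : (H ∩ K).Nonempty := by
  obtain ⟨h1, hh1⟩ := big_all hr hW hT hH ht hd n
  obtain ⟨h2, hh2⟩ := big_all hr hW hT hK ht hd' m
  obtain ⟨l, hl1, hl2⟩ := hW.exists_Acc (fun d => max (h1 d) (h2 d)) t.1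
  obtain ⟨w, hw1, hw2, hw3⟩ := hT.ext t ht l hl2.le
  have e1 := Acc_mono (fun d => le_max_left (h1 d) (h2 d)) hl1
  have e2 := Acc_mono (fun d => le_max_right (h1 d) (h2 d)) hl1
  obtain ⟨h3, h4⟩ := hh1 w hw1 hw3 (by rw [hw2]; exact e1)
  obtain ⟨h5, h6⟩ := hh2 w hw1 hw3 (by rw [hw2]; exact e2)
  have e3 : n + 1 + m = m + 1 + n := by omega
  rw [e3] at h6
  exact ⟨_, h4, h6⟩

theorem baire (hW : IsOm W) (hT : IsTree T) {A : ℕ → Set (Nd W)} (hA : ∀ n, A n ⊆ T) {t : Nd W}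
    (ht : t ∈ T) (h : ∀ y ∈ T, Le t y → ∃ n, ∃ s ∈ A n, Le y s) :
    ∃ n, ∃ t' ∈ T, Le t t' ∧ Dense' T (A n) t' := by
  by_contra hcon
  push Not at hcon
  have h1 : ∀ n, ∃ c, ∀ x ∈ T, c ≤ x.1 → Le t x →
      ∃ s ∈ {y | y ∈ T ∧ ∀ s ∈ A n, ¬ Le y s}, Le s x ∧ s.1 ≤ c := by
    intro n
    refine hT.seal (fun y hy => hy.1) ht ?_
    intro y hy hty
    have h2 := hcon n y hy hty
    simp only [Dense'] at h2
    push Not at h2
    obtain ⟨z, hz1, hz2, hz3⟩ := h2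
    exact ⟨z, ⟨hz1, hz3⟩, hz2⟩
  choose c hc using h1
  obtain ⟨b, hb⟩ := hW.bddN c
  obtain ⟨x, hx1, hx2, hx3⟩ := hT.ext_gt hW ht b
  obtain ⟨n, s, hs1, hs2⟩ := h x hx1 hx2
  obtain ⟨z, ⟨hz1, hz2⟩, hz3, -⟩ := hc n x hx1 ((hb n).le.trans hx3.le) hx2
  exact hz2 s hs1 (hz3.trans hs2)

theorem separating (hr : Sub r) (hT : IsTree T) (hc : ∀ a : W, (Set.Iio a).Countable)
    {H K : Set (Sp r T)} (hK : IsClosed K) (hHK : Disjoint H K) {c : W}
    (hcc : ∀ x ∈ T, x.1 = c →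
      (∀ m, ∀ s ∈ lay H m, ¬ Le x s) ∨ (∀ m, ∀ s ∈ lay K m, ¬ Le x s)) :
    HasSeparatingCover H K := by
  let V : Set (Sp r T) := {p | c < p.1.1.1 ∧ ∀ m, ∀ s ∈ lay K m, ¬ Le (res p.1.1 c) s}
  have hVo : IsOpen V := by
    rw [isOpen_iff]
    intro p hp
    refine ⟨r c p.1.1.1 + 1, fun q hq => ?_⟩
    rcases Nb_above hr hp.1 (Nat.lt_succ_self _) hq with h | h
    · have h1 : q = p := Subtype.ext h
      rw [h1]
      exact hp
    · refine ⟨h, ?_⟩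
      have h1 := (Nb_res (hT.nf _ p.2) hq).2
      rw [h1, res_res _ h.le]
      exact hp.2
  have hVc : IsClosed V := by
    rw [← isOpen_compl_iff, isOpen_iff]
    intro p hp
    rcases lt_or_ge c p.1.1.1 with hlt | hge
    · refine ⟨r c p.1.1.1 + 1, fun q hq hqV => hp ?_⟩
      rcases Nb_above hr hlt (Nat.lt_succ_self _) hq with h | h
      · have h1 : q = p := Subtype.ext h
        rw [← h1]
        exact hqV
      · refine ⟨hlt, ?_⟩
        have h1 := (Nb_res (hT.nf _ p.2) hq).2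
        have h2 := hqV.2
        rw [h1, res_res _ h.le] at h2
        exact h2
    · refine ⟨0, fun q hq hqV => ?_⟩
      have h1 := nb_sub_low hT.nf p 0 (a := c) hge hq
      exact absurd hqV.1 (not_lt.2 h1)
  have hVK : Disjoint V K := by
    rw [Set.disjoint_left]
    intro p hp hpK
    exact hp.2 _ _ (mem_lay K hpK) (Le.res_le hp.1.le)
  have hHV : ∀ p ∈ H, c < p.1.1.1 → p ∈ V := by
    intro p hp hcp
    refine ⟨hcp, ?_⟩
    rcases hcc (res p.1.1 c) (hT.rst _ p.2 c hcp.le) rfl with h | h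
    · exact absurd (Le.res_le hcp.le) (h _ _ (mem_lay H hp))
    · exact h
  have hk : ∀ p : Sp r T, ∃ k, p ∈ H → Disjoint (nb p k) K := by
    intro p
    by_cases hp : p ∈ H
    · obtain ⟨k, hk⟩ := isOpen_iff.1 hK.isOpen_compl p (Set.disjoint_left.1 hHK hp)
      exact ⟨k, fun _ => Set.disjoint_left.2 fun q hq => hk hq⟩
    · exact ⟨0, fun h => absurd h hp⟩
  choose k hk using hk
  have hS : (H ∩ low r T c).Countable := (countable_low hc hT.cnt c).mono inter_subset_right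
  rcases (H ∩ low r T c).eq_empty_or_nonempty with hem | hne
  · refine ⟨fun _ => V, fun p hp => mem_iUnion.2 ⟨0, hHV p hp ?_⟩, fun _ => ⟨hVo, ?_⟩⟩
    · by_contra hcon
      have h1 : p ∈ H ∩ low r T c := ⟨hp, not_lt.1 hcon⟩
      rw [hem] at h1
      exact h1
    · rw [hVc.closure_eq]
      exact hVK
  · obtain ⟨f, hf⟩ := hS.exists_eq_range hne
    refine ⟨fun n => V ∪ nb (f n) (k (f n)), fun p hp => ?_, fun n => ⟨hVo.union (isOpen_nb _ _), ?_⟩⟩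
    · rcases lt_or_ge c p.1.1.1 with hlt | hge
      · exact mem_iUnion.2 ⟨0, Or.inl (hHV p hp hlt)⟩
      · have h1 : p ∈ range f := by
          rw [← hf]
          exact ⟨hp, hge⟩
        obtain ⟨n, rfl⟩ := h1
        exact mem_iUnion.2 ⟨n, Or.inr (self_mem_nb _ _)⟩
    · rw [(hVc.union (isClosed_nb hr hT.nf _ _)).closure_eq, Set.disjoint_union_left]
      refine ⟨hVK, hk (f n) ?_⟩
      have h1 : f n ∈ H ∩ low r T c := by
        rw [hf]
        exact ⟨n, rfl⟩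
      exact h1.1

theorem normal (hr : Sub r) (hW : IsOm W) (hT : IsTree T) : NormalSpace (Sp r T) := by
  constructor
  intro H K hH hK hHK
  rw [← hasSeparatingCovers_iff_separatedNhds]
  let G : Set (Nd W) := {x | x ∈ T ∧
    ((∀ m, ∀ s ∈ lay H m, ¬ Le x s) ∨ (∀ m, ∀ s ∈ lay K m, ¬ Le x s))}
  have hG : ∀ t ∈ T, ∃ y ∈ G, Le t y := by
    intro t ht
    by_contra hcon
    push Not at hcon
    have h1 : ∀ y ∈ T, Le t y → (∃ m, ∃ s ∈ lay H m, Le y s) ∧ (∃ m, ∃ s ∈ lay K m, Le y s) := by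
      intro y hy hty
      have h2 : y ∉ G := fun h => hcon y h hty
      simp only [G, mem_ofPred_eq, not_and, not_or, not_forall, not_not] at h2
      obtain ⟨⟨m, s, hs1, hs2⟩, ⟨m', s', hs1', hs2'⟩⟩ := h2 hy
      exact ⟨⟨m, s, hs1, hs2⟩, ⟨m', s', hs1', hs2'⟩⟩
    obtain ⟨m, t1, ht1, htt1, hd1⟩ := baire hW hT (A := lay H) (lay_sub H) ht
      (fun y hy hty => (h1 y hy hty).1)
    obtain ⟨n, t2, ht2, htt2, hd2⟩ := baire hW hT (A := lay K) (lay_sub K) ht1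
      (fun y hy hty => (h1 y hy (htt1.trans hty)).2)
    obtain ⟨z, hz⟩ := big_both hr hW hT hH hK ht2 (hd1.mono htt2) hd2
    exact Set.disjoint_left.1 hHK hz.1 hz.2
  obtain ⟨c, hc⟩ := hT.sus G (fun x hx => hx.1)
  have hcc : ∀ x ∈ T, x.1 = c →
      (∀ m, ∀ s ∈ lay H m, ¬ Le x s) ∨ (∀ m, ∀ s ∈ lay K m, ¬ Le x s) := by
    intro x hx hxc
    rcases hc x hx hxc with ⟨s, hs1, hs2⟩ | h
    · rcases hs1.2 with h | h
      · exact Or.inl fun m z hz hxz => h m z hz (hs2.trans hxz)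
      · exact Or.inr fun m z hz hxz => h m z hz (hs2.trans hxz)
    · obtain ⟨y, hy1, hy2⟩ := hG x hx
      exact absurd hy2 (h y hy1)
  exact ⟨separating hr hT hW.hc hK hHK hcc, separating hr hT hW.hc hH hHK.symm
    (fun x hx hxc => (hcc x hx hxc).symm)⟩

theorem not_cp (hr : Sub r) (hW : IsOm W) (hT : IsTree T) : ¬ CountablyParacompact (Sp r T) := by
  intro hcp
  obtain ⟨ι, V, hV1, hV2, hV3, hV4⟩ := hcp (fun n => {p : Sp r T | p.1.2 ≤ n})
    (isOpen_layer hT.nf) (by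
      ext p
      simp only [mem_iUnion, mem_ofPred_eq, mem_univ, iff_true]
      exact ⟨p.1.2, le_rfl⟩)
  choose N hN using hV4
  let F : ℕ → Set (Sp r T) := fun n => (⋃ i ∈ {i | n < N i}, V i)ᶜ
  have hFc : ∀ n, IsClosed (F n) := fun n =>
    (isOpen_biUnion fun i _ => hV1 i).isClosed_compl
  have hFn : ∀ n, ∀ p ∈ F n, p.1.2 ≤ n := by
    intro n p hp
    have h1 : p ∈ ⋃ i, V i := by rw [hV2]; exact mem_univ _
    obtain ⟨i, hi⟩ := mem_iUnion.1 h1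
    have h2 : N i ≤ n := by
      by_contra hcon
      exact hp (mem_iUnion₂.2 ⟨i, not_le.1 hcon, hi⟩)
    exact (hN i hi : p.1.2 ≤ N i).trans h2
  have hFu : ∀ p, ∃ n, p ∈ F n := by
    intro p
    have hf := hV3.point_finite p
    obtain ⟨n, hn⟩ := (hf.image N).bddAbove
    refine ⟨n, fun hcon => ?_⟩
    obtain ⟨i, hi1, hi2⟩ := mem_iUnion₂.1 hcon
    exact absurd (hn ⟨i, hi2, rfl⟩) (not_le.2 hi1)
  obtain ⟨t0, ht0⟩ := hT.ne
  obtain ⟨n, t, ht, -, hd⟩ := baire hW hT (A := fun n => lay (F n) 0) (fun n => lay_sub _ _) ht0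
    (fun y hy _ => by
      obtain ⟨n, hn⟩ := hFu (⟨(y, 0), hy⟩ : Sp r T)
      exact ⟨n, y, ⟨hy, hn⟩, Le.refl (hT.nf y hy)⟩)
  obtain ⟨h, hh⟩ := big_all hr hW hT (hFc n) ht hd n
  obtain ⟨l, hl1, hl2⟩ := hW.exists_Acc h t.1
  obtain ⟨w, hw1, hw2, hw3⟩ := hT.ext t ht l hl2.le
  obtain ⟨h3, h4⟩ := hh w hw1 hw3 (by rw [hw2]; exact hl1)
  have h5 := hFn n _ h4
  simp only at h5
  omega

end Pool.Agent.TH785.SD
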