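import Mathlib
import Pool.Agent.TH785.SD.Dowker

/-!
# Coherent Souslin trees
-/

set_option autoImplicit false

namespace Pool.Agent.TH785.SD

open Set Topology Cardinal

/-- the function `g` modified by the finite list of pairs -/
def ov {W : Type} [LinearOrder W] : List (W × ℕ) → (W → ℕ) → W → ℕ
  | [], g, x => g x
  | p :: l, g, x => if x = p.1 then p.2 else ov l g x

/-- `W` is uncountable: no partial function from `ℕ` is onto `W`. -/
def Unc (W : Type) : Prop :=
  ∀ F : ℕ → Set W, (∀ n a b, a ∈ F n → b ∈ F n → a = b) → ∃ a, ∀ n, a ∉ F n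

/-- There is a coherent Souslin tree with levels indexed by `W`: there are functions `e a`, for
`a` in `W`, such that `e a` and `e b` differ below `a` only finitely often for `a ≤ b`, and such
that the tree of the finite modifications of the `e a` restricted to `{ξ | ξ < a}` has the following
property: for every subset `A` of the tree there is a level `c` such that every node of level `c`
extends an element of `A` or is extended by no element of `A`. The pair `(a, τ)` stands for the
node of level `a` which is `e a` modified by the finite list `τ`. -/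
def CohSouslin (W : Type) [LinearOrder W] : Prop :=
  ∃ e : W → W → ℕ,
    (∀ a b, a ≤ b → ∃ l : List W, ∀ x, x < a → x ∉ l → e a x = e b x) ∧
    ∀ A : W → Set (List (W × ℕ)), ∃ c, ∀ σ : List (W × ℕ),
      (∃ a τ, τ ∈ A a ∧ a ≤ c ∧ ∀ x, x < a → ov τ (e a) x = ov σ (e c) x) ∨
      ∀ a τ, τ ∈ A a → ¬ (c ≤ a ∧ ∀ x, x < c → ov τ (e a) x = ov σ (e c) x)

/-- Every family of subsets of `ℕ` indexed by `W` is contained in a certain meager set. -/
def Meag (W : Type) : Prop :=
  ∀ F : W → Set ℕ, ∃ z : Set ℕ, ∀ a, ∃ m, ∀ n, m ≤ n → ∃ k, n ≤ k ∧ k < 2 * n ∧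
    ¬ (k ∈ F a ↔ k ∈ z)

section

variable {W : Type} [LinearOrder W]

theorem ov_map (f g : W → ℕ) (l : List W) (x : W) :
    ov (l.map fun y => (y, f y)) g x = if x ∈ l then f x else g x := by
  classical
  induction l with
  | nil => simp [ov]
  | cons y l ih =>
    simp only [List.map_cons, ov, ih, List.mem_cons]
    by_cases h : x = y
    · subst h; simp
    · simp [h]

/-- the node of level `a` given by a list -/
noncomputable def nd (e : W → W → ℕ) (a : W) (τ : List (W × ℕ)) : Nd W :=
  (a, fun x => if x < a then ov τ (e a) x else 0)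

/-- the tree -/
def Tr (e : W → W → ℕ) : Set (Nd W) := {x | NF x ∧ {y | y < x.1 ∧ x.2 y ≠ e x.1 y}.Finite}

theorem nf_nd (e : W → W → ℕ) (a : W) (τ : List (W × ℕ)) : NF (nd e a τ) := by
  intro b hb
  have hb' : ¬ b < a := not_lt.2 hb
  simp [nd, hb']

theorem exists_nd {e : W → W → ℕ} {x : Nd W} (hx : x ∈ Tr e) :
    ∃ l : List W, (∀ y ∈ l, y < x.1) ∧ x = nd e x.1 (l.map fun y => (y, x.2 y)) := by
  refine ⟨hx.2.toFinset.toList, fun y hy => ?_, ?_⟩
  · rw [Finset.mem_toList, Set.Finite.mem_toFinset] at hy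
    exact hy.1
  · refine Prod.ext rfl ?_
    funext y
    show x.2 y = if y < x.1 then _ else 0
    by_cases h : y < x.1
    · rw [if_pos h, ov_map]
      by_cases h2 : x.2 y = e x.1 y
      · split_ifs
        · rfl
        · exact h2
      · have h3 : y ∈ hx.2.toFinset.toList := by
          rw [Finset.mem_toList, Set.Finite.mem_toFinset]
          exact ⟨h, h2⟩
        rw [if_pos h3]
    · rw [if_neg h]
      exact hx.1 y (not_lt.1 h)

theorem nd_mem (e : W → W → ℕ) (a : W) (τ : List (W × ℕ)) : nd e a τ ∈ Tr e := by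
  refine ⟨nf_nd e a τ, ?_⟩
  have h1 : ∀ x, x ∉ τ.map Prod.fst → ov τ (e a) x = e a x := by
    intro x
    induction τ with
    | nil => simp [ov]
    | cons p l ih =>
      intro hx
      simp only [List.map_cons, List.mem_cons, not_or] at hx
      simp only [ov, if_neg hx.1]
      exact ih hx.2
  refine (List.finite_toSet (τ.map Prod.fst)).subset ?_
  rintro y ⟨hy1, hy2⟩
  have hy1' : y < a := hy1
  by_contra hcon
  apply hy2
  show (if y < a then ov τ (e a) y else 0) = e a y
  rw [if_pos hy1']
  exact h1 y hcon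

theorem isTree_Tr (hW : IsOm W) {e : W → W → ℕ}
    (he : ∀ a b, a ≤ b → ∃ l : List W, ∀ x, x < a → x ∉ l → e a x = e b x)
    (hs : ∀ A : W → Set (List (W × ℕ)), ∃ c, ∀ σ : List (W × ℕ),
      (∃ a τ, τ ∈ A a ∧ a ≤ c ∧ ∀ x, x < a → ov τ (e a) x = ov σ (e c) x) ∨
      ∀ a τ, τ ∈ A a → ¬ (c ≤ a ∧ ∀ x, x < c → ov τ (e a) x = ov σ (e c) x)) :
    IsTree (Tr e) := by
  classical
  have hne : Nonempty W := by
    by_contra hcon
    rw [not_nonempty_iff] at hcon
    exact hW.hu countable_univ
  -- glueing
  have glue : ∀ x ∈ Tr e, ∀ b, x.1 ≤ b → ∀ g : W → ℕ, {y | g y ≠ e b y}.Finite →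
      ((b, fun y => if y < x.1 then x.2 y else if y < b then g y else 0) : Nd W) ∈ Tr e := by
    intro x hx b hb g hg
    refine ⟨?_, ?_⟩
    · intro y hy
      have h1 : ¬ y < b := not_lt.2 hy
      have h2 : ¬ y < x.1 := fun h => h1 (h.trans_le hb)
      simp [h1, h2]
    · obtain ⟨l, hl⟩ := he x.1 b hb
      refine ((hx.2.union (List.finite_toSet l)).union hg).subset ?_
      rintro y ⟨hy1, hy2⟩
      have hy1' : y < b := hy1
      by_cases hyx : y < x.1
      · left
        by_cases hyl : y ∈ l
        · exact Or.inr hyl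
        · left
          refine ⟨hyx, ?_⟩
          rw [hl y hyx hyl]
          simpa [hyx] using hy2
      · right
        simpa [hyx, hy1'] using hy2
  refine ⟨fun x hx => hx.1, ?_, ?_, ?_, ?_, ?_, ?_⟩
  · intro x hx a ha
    refine ⟨nf_res x a, ?_⟩
    obtain ⟨l, hl⟩ := he a x.1 ha
    refine (hx.2.union (List.finite_toSet l)).subset ?_
    rintro y ⟨hy1, hy2⟩
    have hy1' : y < a := hy1
    by_cases hyl : y ∈ l
    · exact Or.inr hyl
    · left
      refine ⟨hy1'.trans_le ha, ?_⟩
      rw [res_snd x hy1'] at hy2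
      have h3 : e a y = e x.1 y := hl y hy1' hyl
      rw [← h3]
      exact hy2
  · intro x hx a ha
    refine ⟨_, glue x hx a ha (e a) (by simp), rfl, ha, ?_⟩
    refine Prod.ext rfl ?_
    funext y
    by_cases h : y < x.1
    · simp [res, h]
    · simp only [res, if_neg h]
      exact (hx.1 y (not_lt.1 h)).symm
  · intro x hx l
    obtain ⟨b, hb⟩ := hW.bdd (countable_singleton x.1)
    have hb' : x.1 < b := hb x.1 rfl
    refine ⟨_, glue x hx b hb'.le (Function.update (e b) x.1 l) ?_, hb', ⟨hb'.le, ?_⟩, ?_⟩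
    · refine (Set.finite_singleton x.1).subset fun y hy => ?_
      by_contra hcon
      exact hy (Function.update_of_ne hcon _ _)
    · refine Prod.ext rfl ?_
      funext y
      by_cases h : y < x.1
      · simp [res, h]
      · simp only [res, if_neg h]
        exact (hx.1 y (not_lt.1 h)).symm
    · show (if x.1 < x.1 then _ else if x.1 < b then Function.update (e b) x.1 l x.1 else 0) = l
      rw [if_neg (lt_irrefl _), if_pos hb', Function.update_self]
  · intro a
    haveI : Countable (Set.Iio a) := hW.hc a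
    let Φ : List (Set.Iio a × ℕ) → Nd W := fun τ => nd e a (τ.map fun p => (p.1.1, p.2))
    refine (countable_range Φ).mono ?_
    rintro x ⟨hx1, hx2⟩
    obtain ⟨l, hl1, hl2⟩ := exists_nd hx1
    subst hx2
    refine ⟨l.attach.map fun y => (⟨y.1, hl1 y.1 y.2⟩, x.2 y.1), ?_⟩
    show nd e x.1 _ = x
    rw [List.map_map]
    conv_rhs => rw [hl2]
    congr 1
    conv_rhs => rw [← List.attach_map_subtype_val l]
    rw [List.map_map]
    rfl
  · intro A hA
    obtain ⟨c, hc⟩ := hs (fun a => {τ | nd e a τ ∈ A})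
    refine ⟨c, fun x hx hxc => ?_⟩
    obtain ⟨l, -, hl⟩ := exists_nd hx
    set σ := l.map fun y => (y, x.2 y) with hσ
    rw [hxc] at hl
    rcases hc σ with ⟨a, τ, h1, h2, h3⟩ | h
    · left
      refine ⟨nd e a τ, h1, ?_⟩
      rw [hl]
      refine ⟨h2, Prod.ext rfl ?_⟩
      funext y
      by_cases h : y < a
      · have h4 : y < c := h.trans_le h2
        simp only [nd, res, if_pos h, if_pos h4]
        exact (h3 y h).symm
      · simp [nd, res, h]
    · right
      intro s hs' hxs
      obtain ⟨l', -, hl'⟩ := exists_nd (hA hs')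
      have h1 := h s.1 (l'.map fun y => (y, s.2 y)) (by
        show nd e s.1 _ ∈ A
        rw [← hl']
        exact hs')
      apply h1
      rw [hl] at hxs
      refine ⟨hxs.1, fun y hy => ?_⟩
      have h2 := congrFun (congrArg Prod.snd hxs.2) y
      have hy1 : y < (nd e c σ).1 := hy
      have hy2 : y < s.1 := hy1.trans_le hxs.1
      rw [res_snd s hy1] at h2
      rw [hl'] at h2
      simp only [nd, if_pos hy, if_pos hy2] at h2
      exact h2
  · obtain ⟨a⟩ := hne
    exact ⟨nd e a [], nd_mem e a []⟩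

end

end Pool.Agent.TH785.SD
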