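import Mathlib
import Pool.Agent.TH785.SD.STree

/-!
# The combinatorial statement and its consequences
-/

set_option autoImplicit false

namespace Pool.Agent.TH785.SD

open Set Topology Cardinal

/-- The conjunction of the three combinatorial statements. -/
def Comb (W : Type) [LinearOrder W] : Prop := Unc W ∧ CohSouslin W ∧ Meag W

/-- A Lusin set: an uncountable set of reals which meets every meager set in a countable set. -/
def IsLusin (L : Set ℝ) : Prop := ¬ L.Countable ∧ ∀ M : Set ℝ, IsMeagre M → (L ∩ M).Countable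

section real

/-- the `k`-th binary digit of `x` is one -/
def dig (k : ℕ) (x : ℝ) : Prop := ⌊(2:ℝ) ^ k * x⌋ % 2 = 1

/-- dyadic intervals -/
def I (k : ℕ) (a : ℤ) : Set ℝ := {y | (a : ℝ) < 2 ^ k * y ∧ 2 ^ k * y < a + 1}

theorem isOpen_I (k : ℕ) (a : ℤ) : IsOpen (I k a) := by
  have h1 : Continuous fun y : ℝ => (2 : ℝ) ^ k * y := by fun_prop
  have h2 : IsOpen {y : ℝ | (a : ℝ) < 2 ^ k * y} := isOpen_lt continuous_const h1
  have h3 : IsOpen {y : ℝ | 2 ^ k * y < (a : ℝ) + 1} := isOpen_lt h1 continuous_const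
  exact h2.inter h3

theorem I_nonempty (k : ℕ) (a : ℤ) : (I k a).Nonempty := by
  refine ⟨((a : ℝ) + 1 / 2) / 2 ^ k, ?_⟩
  have h : (2 : ℝ) ^ k * (((a : ℝ) + 1 / 2) / 2 ^ k) = (a : ℝ) + 1 / 2 := by
    field_simp
  refine ⟨?_, ?_⟩
  · rw [h]; linarith
  · rw [h]; linarith

theorem exists_sub (z : Set ℕ) (k0 j : ℕ) (a : ℤ) : ∃ a' : ℤ, I (k0 + j) a' ⊆ I k0 a ∧
    ∀ y ∈ I (k0 + j) a', ∀ k, k0 < k → k ≤ k0 + j → (dig k y ↔ k ∈ z) := by
  classical
  induction j with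
  | zero => exact ⟨a, subset_rfl, fun y _ k h1 h2 => absurd h1 (by simpa using h2)⟩
  | succ j ih =>
    obtain ⟨a', h1, h2⟩ := ih
    let d : ℤ := if k0 + (j + 1) ∈ z then 1 else 0
    have hd0 : 0 ≤ d := by simp only [d]; split_ifs <;> norm_num
    have hd1 : d ≤ 1 := by simp only [d]; split_ifs <;> norm_num
    have hsub : I (k0 + (j + 1)) (2 * a' + d) ⊆ I (k0 + j) a' := by
      rintro y ⟨hy1, hy2⟩
      have e : (2 : ℝ) ^ (k0 + (j + 1)) * y = 2 * (2 ^ (k0 + j) * y) := by ring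
      rw [e] at hy1 hy2
      push_cast at hy1 hy2
      have h0 : (0 : ℝ) ≤ d := by exact_mod_cast hd0
      have h1' : (d : ℝ) ≤ 1 := by exact_mod_cast hd1
      exact ⟨by linarith, by linarith⟩
    refine ⟨2 * a' + d, hsub.trans h1, fun y hy k hk1 hk2 => ?_⟩
    rcases Nat.lt_or_ge k (k0 + (j + 1)) with h | h
    · exact h2 y (hsub hy) k hk1 (by omega)
    · have hk : k = k0 + (j + 1) := le_antisymm hk2 h
      subst hk
      have hfl : ⌊(2 : ℝ) ^ (k0 + (j + 1)) * y⌋ = 2 * a' + d := by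
        rw [Int.floor_eq_iff]
        exact ⟨hy.1.le, hy.2⟩
      unfold dig
      rw [hfl]
      simp only [d]
      split_ifs with h3
      · simp only [h3, iff_true]; omega
      · simp only [h3, iff_false]; omega

/-- the meager set given by `z` -/
def Mz (z : Set ℕ) : Set ℝ :=
  {x | ∃ m, ∀ n, m ≤ n → ∃ k, n ≤ k ∧ k < 2 * n ∧ ¬ (dig k x ↔ k ∈ z)}

theorem isMeagre_Mz (z : Set ℕ) : IsMeagre (Mz z) := by
  rw [isMeagre_iff_countable_union_isNowhereDense]
  refine ⟨range fun m : ℕ => {x : ℝ | ∀ n, m ≤ n → ∃ k, n ≤ k ∧ k < 2 * n ∧ ¬ (dig k x ↔ k ∈ z)},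
    ?_, countable_range _, ?_⟩
  · rintro _ ⟨m, rfl⟩
    rw [IsNowhereDense, Set.eq_empty_iff_forall_notMem]
    intro x0 hx0
    have hU := isOpen_interior (s := closure {x : ℝ | ∀ n, m ≤ n → ∃ k, n ≤ k ∧ k < 2 * n ∧
      ¬ (dig k x ↔ k ∈ z)})
    obtain ⟨ε, hε, hball⟩ := Metric.isOpen_iff.1 hU x0 hx0
    obtain ⟨N, hN⟩ := exists_pow_lt_of_lt_one hε (show (1 / 2 : ℝ) < 1 by norm_num)
    let n1 := max N m
    obtain ⟨a', h1, h2⟩ := exists_sub z n1 (n1 + 1) ⌊(2 : ℝ) ^ n1 * x0⌋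
    obtain ⟨y, hy⟩ := I_nonempty (n1 + (n1 + 1)) a'
    have hb : y ∈ Metric.ball x0 ε := by
      obtain ⟨h3, h4⟩ := h1 hy
      have h5 := Int.floor_le ((2 : ℝ) ^ n1 * x0)
      have h6 := Int.lt_floor_add_one ((2 : ℝ) ^ n1 * x0)
      rw [Metric.mem_ball, Real.dist_eq]
      have hp : (0 : ℝ) < 2 ^ n1 := by positivity
      have h7 : |(2 : ℝ) ^ n1 * (y - x0)| < 1 := by
        rw [abs_lt]
        constructor
        · nlinarith
        · nlinarith
      rw [abs_mul, abs_of_pos hp] at h7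
      have h8 : (1 / 2 : ℝ) ^ n1 < ε := by
        refine lt_of_le_of_lt ?_ hN
        exact pow_le_pow_of_le_one (by norm_num) (by norm_num) (le_max_left _ _)
      have h9 : |y - x0| < (1 / 2 : ℝ) ^ n1 := by
        have h10 : |y - x0| < 1 / 2 ^ n1 := by
          rw [lt_div_iff₀ hp]
          linarith
        simpa [one_div, inv_pow] using h10
      exact h9.trans h8
    have hyc : y ∈ closure {x : ℝ | ∀ n, m ≤ n → ∃ k, n ≤ k ∧ k < 2 * n ∧
      ¬ (dig k x ↔ k ∈ z)} := interior_subset (hball hb)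
    obtain ⟨w, hw1, hw2⟩ := mem_closure_iff.1 hyc _ (isOpen_I _ _) hy
    obtain ⟨k, hk1, hk2, hk3⟩ := hw2 (n1 + 1) ((le_max_right N m).trans (Nat.le_succ _))
    exact hk3 (h2 w hw1 k (by omega) (by omega))
  · rintro x ⟨m, hm⟩
    exact ⟨_, ⟨m, rfl⟩, hm⟩

end real

section

variable {W : Type} [LinearOrder W] [WellFoundedLT W]

theorem mk_W (hW : IsOm W) : #W = ℵ₁ := by
  have h1 : ¬ #W ≤ ℵ₀ := fun h => hW.hu (by
    rw [Set.countable_univ_iff]
    exact Cardinal.mk_le_aleph0_iff.1 h)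
  have h2 : ℵ₁ ≤ #W := by
    rw [← Cardinal.succ_aleph0]
    exact Order.succ_le_of_lt (not_le.1 h1)
  refine le_antisymm ?_ h2
  by_contra hcon
  have h3 : ℵ₁ < #W := not_le.1 hcon
  have h4 : (ℵ₁ : Cardinal.{0}).ord < Ordinal.type (fun a b : W => a < b) :=
    (Cardinal.ord_lt_ord.2 h3).trans_le (Cardinal.ord_le_type _)
  obtain ⟨a, ha⟩ := Ordinal.typein_surj (fun a b : W => a < b) h4
  have h5 := Ordinal.card_typein (r := fun a b : W => a < b) a
  rw [ha, Cardinal.card_ord] at h5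
  have h6 : #(Set.Iio a) ≤ ℵ₀ := Cardinal.le_aleph0_iff_set_countable.2 (hW.hc a)
  have h7 : #(Set.Iio a) = ℵ₁ := h5.symm
  rw [h7] at h6
  exact absurd h6 (not_le.2 Cardinal.aleph0_lt_aleph_one)

theorem isOm_of_unc (hc : ∀ a : W, (Set.Iio a).Countable) (h : Unc W) : IsOm W := by
  classical
  refine ⟨hc, fun hcon => ?_⟩
  obtain ⟨f, hf⟩ := Set.countable_iff_exists_injOn.1 hcon
  obtain ⟨a, ha⟩ := h (fun n => {a | f a = n}) (by
    intro n a b ha hb
    exact hf (mem_univ _) (mem_univ _) (by rw [ha, hb]))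
  exact ha (f a) rfl

theorem not_lusin (hW : IsOm W) (h : Meag W) : ¬ ∃ L : Set ℝ, IsLusin L := by
  rintro ⟨L, hL1, hL2⟩
  have h1 : #W ≤ #L := by
    rw [mk_W hW]
    have h2 : ¬ #L ≤ ℵ₀ := fun h => hL1 (Cardinal.le_aleph0_iff_set_countable.1 h)
    rw [← Cardinal.succ_aleph0]
    exact Order.succ_le_of_lt (not_le.1 h2)
  obtain ⟨g⟩ := h1
  obtain ⟨z, hz⟩ := h (fun a => {k | dig k (g a : ℝ)})
  have h2 := hL2 (Mz z) (isMeagre_Mz z)
  apply hW.hu
  have h3 : (univ : Set W) ⊆ (fun a => (g a : ℝ)) ⁻¹' (L ∩ Mz z) := by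
    intro a _
    refine ⟨(g a).2, ?_⟩
    obtain ⟨m, hm⟩ := hz a
    exact ⟨m, hm⟩
  refine (h2.preimage ?_).mono h3
  intro a b hab
  exact g.injective (Subtype.ext hab)

/-- In ZFC, the combinatorial statement gives a first countable, locally countable Dowker space of
size `ℵ₁`, and excludes Lusin sets. -/
theorem main (hc : ∀ a : W, (Set.Iio a).Countable) (h : Comb W) :
    (∃ (X : Type) (_ : TopologicalSpace X), #X = ℵ₁ ∧ T2Space X ∧ NormalSpace X ∧
      ¬ CountablyParacompact X ∧ FirstCountableTopology X ∧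
      ∀ x : X, ∃ U : Set X, IsOpen U ∧ U.Countable ∧ x ∈ U) ∧
    ¬ ∃ L : Set ℝ, IsLusin L := by
  have hW := isOm_of_unc hc h.1
  refine ⟨?_, not_lusin hW h.2.2⟩
  obtain ⟨e, he, hs⟩ := h.2.1
  have hT := isTree_Tr hW he hs
  obtain ⟨r, hr⟩ := exists_rho hc
  refine ⟨Sp r (Tr e), instTop, ?_, t2 hr hT.nf, normal hr hW hT, not_cp hr hW hT,
    firstCountable, fun x => ⟨low r (Tr e) x.1.1.1, isOpen_low hT.nf _,
      countable_low hc hT.cnt _, le_rfl⟩⟩
  refine le_antisymm ?_ ?_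
  · have h1 : (univ : Set (Sp r (Tr e))) = ⋃ a : W, low r (Tr e) a := by
      ext p
      simp only [mem_univ, mem_iUnion, true_iff]
      exact ⟨p.1.1.1, le_rfl⟩
    calc #(Sp r (Tr e)) = #(univ : Set (Sp r (Tr e))) := Cardinal.mk_univ.symm
      _ = #(⋃ a : W, low r (Tr e) a) := by rw [h1]
      _ ≤ Cardinal.sum fun a : W => #(low r (Tr e) a) := Cardinal.mk_iUnion_le_sum_mk
      _ ≤ Cardinal.sum fun _ : W => ℵ₀ := Cardinal.sum_le_sum _ _ fun a =>
          Cardinal.le_aleph0_iff_set_countable.2 (countable_low hc hT.cnt a)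
      _ = ℵ₁ := by
          rw [Cardinal.sum_const', mk_W hW]
          simp
  · rw [← mk_W hW]
    refine Cardinal.mk_le_of_injective (f := fun a : W => (⟨(nd e a [], 0), nd_mem e a []⟩ :
      Sp r (Tr e))) ?_
    intro a b hab
    exact congrArg (fun p : Sp r (Tr e) => p.1.1.1) hab

end

end Pool.Agent.TH785.SD
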