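import Mathlib
import Pool.Agent.TH785.SD.Exh
import Pool.Agent.TH785.SD.Zfc

/-!
# Countable approximations of a coherent tree
-/

set_option autoImplicit false

namespace Pool.Agent.TH785.SD

open Set

variable {W : Type} [LinearOrder W]

/-- A condition: a height and a coherent sequence of functions up to this height. -/
structure Cj (W : Type) [LinearOrder W] where
  ht : W
  e : W → W → ℕ
  coh : ∀ a b, a ≤ b → b ≤ ht → {x | x < a ∧ e a x ≠ e b x}.Finite

/-- extension of conditions -/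
instance : Preorder (Cj W) where
  le i j := j.ht ≤ i.ht ∧ ∀ a, a ≤ j.ht → ∀ x, x < a → i.e a x = j.e a x
  le_refl _ := ⟨le_rfl, fun _ _ _ _ => rfl⟩
  le_trans _ _ _ h1 h2 := ⟨h2.1.trans h1.1, fun a ha x hx =>
    (h1.2 a (ha.trans h2.1) x hx).trans (h2.2 a ha x hx)⟩

theorem Cj.le_def {i j : Cj W} : i ≤ j ↔ j.ht ≤ i.ht ∧ ∀ a, a ≤ j.ht → ∀ x, x < a →
    i.e a x = j.e a x := Iff.rfl

/-- extension of conditions such that the top functions extend each other -/
def Rt (i j : Cj W) : Prop := i ≤ j ∧ ∀ x, x < j.ht → i.e i.ht x = j.e j.ht x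

theorem Rt.refl (j : Cj W) : Rt j j := ⟨le_rfl, fun _ _ => rfl⟩

theorem Rt.trans {i j k : Cj W} (h1 : Rt i j) (h2 : Rt j k) : Rt i k :=
  ⟨h1.1.trans h2.1, fun x hx => (h1.2 x (hx.trans_le h2.1.1)).trans (h2.2 x hx)⟩

/-- two conditions agree with the later one -/
theorem Cj.agree {i j : Cj W} (h : i ≤ j) {a x : W} (ha : a ≤ j.ht) (hx : x < a) :
    i.e a x = j.e a x := h.2 a ha x hx

/-- Limits of sequences. -/
theorem exists_lim (hW : IsOm W) [WellFoundedLT W] {s : ℕ → Cj W} (hs : ∀ n, Rt (s (n + 1)) (s n)) :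
    ∃ l : Cj W, (∀ n, Rt l (s n)) ∧ ∀ x, x < l.ht → ∃ n, x < (s n).ht := by
  classical
  have hmono : ∀ m n, m ≤ n → Rt (s n) (s m) := by
    intro m n h
    induction n, h using Nat.le_induction with
    | base => exact Rt.refl _
    | succ n _ ih => exact (hs n).trans ih
  by_cases hcase : ∃ N, ∀ n, (s n).ht ≤ (s N).ht
  · obtain ⟨N, hN⟩ := hcase
    refine ⟨s N, fun n => ?_, fun x hx => ⟨N, hx⟩⟩
    rcases le_total n N with h | h
    · exact hmono n N h
    · have h1 := hmono N n h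
      have h2 : (s n).ht = (s N).ht := le_antisymm (hN n) h1.1.1
      refine ⟨⟨hN n, fun a ha x hx => ?_⟩, fun x hx => ?_⟩
      · exact (h1.1.2 a (ha.trans (hN n)) x hx).symm
      · exact (h1.2 x (hx.trans_le (hN n))).symm
  · push Not at hcase
    obtain ⟨l, hl1, hl2⟩ := hW.lub fun n => (s n).ht
    -- an index for every height below the limit
    have hidx : ∀ a, ∃ n, a < l → a < (s n).ht := by
      intro a
      by_cases ha : a < l
      · obtain ⟨n, hn⟩ := hl2 a ha
        obtain ⟨m, hm⟩ := hcase n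
        exact ⟨m, fun _ => hn.trans_lt hm⟩
      · exact ⟨0, fun h => absurd h ha⟩
    choose N hN using hidx
    let E : W → W → ℕ := fun a x => if a < l then (s (N a)).e a x else (s (N x)).e (s (N x)).ht x
    have hE : ∀ n a x, a ≤ (s n).ht → x < a → E a x = (s n).e a x := by
      intro n a x ha hx
      have hal : a < l := ha.trans_lt (hl1 n)
      simp only [E, if_pos hal]
      have h1 := hN a hal
      rcases le_total n (N a) with h | h
      · exact (hmono _ _ h).1.2 a ha x hx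
      · exact ((hmono _ _ h).1.2 a h1.le x hx).symm
    have hEl : ∀ n x, x < (s n).ht → E l x = (s n).e (s n).ht x := by
      intro n x hx
      have hxl : x < l := hx.trans (hl1 n)
      simp only [E, if_neg (lt_irrefl l)]
      have h1 := hN x hxl
      rcases le_total n (N x) with h | h
      · exact (hmono _ _ h).2 x hx
      · exact ((hmono _ _ h).2 x h1).symm
    have hcoh : ∀ a b, a ≤ b → b ≤ l → {x | x < a ∧ E a x ≠ E b x}.Finite := by
      intro a b hab hbl
      rcases hbl.lt_or_eq with hb | hb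
      · have h1 := (s (N b)).coh a b hab (hN b hb).le
        refine h1.subset ?_
        rintro x ⟨hx1, hx2⟩
        rw [hE (N b) a x (hab.trans (hN b hb).le) hx1,
          hE (N b) b x (hN b hb).le (hx1.trans_le hab)] at hx2
        exact ⟨hx1, hx2⟩
      · subst hb
        rcases hab.lt_or_eq with ha | ha
        · have h1 := (s (N a)).coh a _ (hN a ha).le le_rfl
          refine h1.subset ?_
          rintro x ⟨hx1, hx2⟩
          rw [hE (N a) a x (hN a ha).le hx1, hEl (N a) x (hx1.trans (hN a ha))] at hx2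
          exact ⟨hx1, hx2⟩
        · subst ha
          simp
    refine ⟨⟨l, E, hcoh⟩, fun n => ⟨⟨(hl1 n).le, fun a ha x hx => hE n a x ha hx⟩, ?_⟩, ?_⟩
    · exact fun x hx => hEl n x hx
    · intro x hx
      obtain ⟨n, hn⟩ := hl2 x hx
      obtain ⟨m, hm⟩ := hcase n
      exact ⟨m, hn.trans_lt hm⟩

/-- new levels -/
theorem exists_glue (j' : Cj W) (b : W) (hb : j'.ht < b) (f : W → ℕ)
    (hf : {x | x < j'.ht ∧ f x ≠ j'.e j'.ht x}.Finite) :
    ∃ i : Cj W, i ≤ j' ∧ i.ht = b ∧ ∀ x, x < b → i.e i.ht x = f x := by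
  classical
  let E : W → W → ℕ := fun a x => if a ≤ j'.ht then j'.e a x else f x
  have hcoh : ∀ a c, a ≤ c → c ≤ b → {x | x < a ∧ E a x ≠ E c x}.Finite := by
    intro a c hac _
    by_cases hc : c ≤ j'.ht
    · have ha : a ≤ j'.ht := hac.trans hc
      simpa only [E, if_pos hc, if_pos ha] using j'.coh a c hac hc
    · by_cases ha : a ≤ j'.ht
      · refine ((j'.coh a _ ha le_rfl).union hf).subset ?_
        rintro x ⟨hx1, hx2⟩
        simp only [E, if_neg hc, if_pos ha] at hx2
        by_cases h : f x = j'.e j'.ht x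
        · left
          refine ⟨hx1, ?_⟩
          rw [← h]
          exact hx2
        · exact Or.inr ⟨hx1.trans_le ha, h⟩
      · simp [E, if_neg hc, if_neg ha]
  refine ⟨⟨b, E, hcoh⟩, ⟨hb.le, fun a ha x _ => ?_⟩, rfl, fun x _ => ?_⟩
  · simp only [E, if_pos ha]
  · simp only [E, if_neg (not_le.2 hb)]

theorem IsOm.gt (hW : IsOm W) (a b : W) : ∃ c, a < c ∧ b < c := by
  obtain ⟨c, hc⟩ := hW.bdd (S := {a, b}) (by simp)
  exact ⟨c, hc a (by simp), hc b (by simp)⟩

/-- higher conditions -/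
theorem exists_high (hW : IsOm W) (j : Cj W) (a : W) : ∃ i : Cj W, Rt i j ∧ a < i.ht := by
  obtain ⟨b, hb1, hb2⟩ := hW.gt a j.ht
  obtain ⟨i, hi1, hi2, hi3⟩ := exists_glue j b hb2 (fun x => j.e j.ht x) (by simp)
  exact ⟨i, ⟨hi1, fun x hx => hi3 x (hx.trans hb2)⟩, by rw [hi2]; exact hb1⟩

/-- `ov` does not change outside the list -/
theorem ov_of_notMem {g : W → ℕ} {σ : List (W × ℕ)} {x : W} (h : ∀ p ∈ σ, p.1 ≠ x) :
    ov σ g x = g x := by
  induction σ with
  | nil => rfl
  | cons p l ih =>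
    have h1 : x ≠ p.1 := fun hh => h p (by simp) hh.symm
    simp only [ov, if_neg h1]
    exact ih fun q hq => h q (by simp [hq])

theorem ov_congr {g g' : W → ℕ} {σ : List (W × ℕ)} {x : W} (h : g x = g' x) :
    ov σ g x = ov σ g' x := by
  induction σ with
  | nil => exact h
  | cons p l ih => simp only [ov]; rw [ih]

/-- the tops can be directed through a node of an extension -/
theorem exists_redirect (hW : IsOm W) {j j' : Cj W} (hj : j' ≤ j) {σ τ : List (W × ℕ)} {a : W}
    (hσ : ∀ p ∈ σ, p.1 < j.ht) (ha1 : j.ht ≤ a) (ha2 : a ≤ j'.ht)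
    (hext : ∀ x, x < j.ht → ov τ (j'.e a) x = ov σ (j.e j.ht) x) :
    ∃ i : Cj W, i ≤ j' ∧ Rt i j ∧ a ≤ i.ht ∧ ∀ x, x < a → ov σ (i.e i.ht) x = ov τ (i.e a) x := by
  classical
  obtain ⟨b, hb, -⟩ := hW.gt j'.ht j'.ht
  let f : W → ℕ := fun x => if x < j.ht then j.e j.ht x else if x < a then ov τ (j'.e a) x
    else j'.e j'.ht x
  have hf : {x | x < j'.ht ∧ f x ≠ j'.e j'.ht x}.Finite := by
    have h1 := j'.coh j.ht j'.ht hj.1 le_rfl
    have h2 := j'.coh a j'.ht ha2 le_rfl
    refine ((h1.union h2).union ((List.finite_toSet (τ.map Prod.fst)))).subset ?_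
    rintro x ⟨hx1, hx2⟩
    by_cases hx3 : x < j.ht
    · left; left
      refine ⟨hx3, ?_⟩
      simp only [f, if_pos hx3] at hx2
      rw [hj.2 j.ht le_rfl x hx3]
      exact hx2
    · by_cases hx4 : x < a
      · by_cases hx5 : x ∈ τ.map Prod.fst
        · exact Or.inr hx5
        · left; right
          refine ⟨hx4, ?_⟩
          simp only [f, if_neg hx3, if_pos hx4] at hx2
          rw [ov_of_notMem (fun p hp hpx => hx5 (List.mem_map.2 ⟨p, hp, hpx⟩))] at hx2
          exact hx2
      · simp only [f, if_neg hx3, if_neg hx4] at hx2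
        exact absurd rfl hx2
  obtain ⟨i, hi1, hi2, hi3⟩ := exists_glue j' b hb f hf
  have hbi : b = i.ht := hi2.symm
  refine ⟨i, hi1, ⟨hi1.trans hj, fun x hx => ?_⟩, ha2.trans hi1.1, fun x hx => ?_⟩
  · rw [hi3 x (hx.trans_le (hj.1.trans hb.le))]
    simp only [f, if_pos hx]
  · have hxb : x < b := (hx.trans_le ha2).trans hb
    have h1 : i.e a x = j'.e a x := hi1.2 a ha2 x hx
    rw [ov_congr (σ := τ) h1]
    rw [ov_congr (σ := σ) (hi3 x hxb)]
    by_cases hx3 : x < j.ht
    · rw [hext x hx3]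
      refine ov_congr ?_
      simp only [f, if_pos hx3]
    · rw [ov_of_notMem (fun p hp hpx => hx3 (by rw [← hpx]; exact hσ p hp))]
      simp only [f, if_neg hx3, if_pos hx]

end Pool.Agent.TH785.SD
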