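import Mathlib
import Pool.Agent.Helper669.Forcing
import Pool.Agent.TH785.SD.Zfc

/-!
# The forcing translation of the combinatorial statement
-/

set_option autoImplicit false

namespace Pool.Agent.TH785.SD

open Pool.Agent.Helper669.Forcing

section

variable {P : Type} [Preorder P] {W : Type} [LinearOrder W]

/-- disjunction -/
def fOr (φ ψ : Set P) : Set P := fnot (fand (fnot φ) (fnot ψ))

/-- equivalence -/
def fiff (φ ψ : Set P) : Set P := fand (fimp φ ψ) (fimp ψ φ)

/-- The natural numbers named by `u` and `v` (their singletons) are equal. -/
def EqN (u v : ℕ → Set P) : Set P := fall fun n => fiff (meets (u n)) (meets (v n))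

/-- the name of the function named by `g` modified by the finite list -/
def ovN : List (W × ℕ) → (W → ℕ → Set P) → W → ℕ → Set P
  | [], g, x => g x
  | p :: l, g, x => if x = p.1 then (fun n => fground (n = p.2)) else ovN l g x

/-- The forcing translation of `Unc W`. -/
def UncN (P : Type) [Preorder P] (W : Type) : Set P :=
  fall fun F : ℕ → W → Set P =>
    fimp (fall fun n => fall fun a => fall fun b =>
      fimp (meets (F n a)) (fimp (meets (F n b)) (fground (a = b))))
      (fex fun a => fall fun n => fnot (meets (F n a)))

/-- The forcing translation of `CohSouslin W`. -/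
def CohSouslinN (P : Type) [Preorder P] (W : Type) [LinearOrder W] : Set P :=
  fex fun e : W → W → ℕ → Set P =>
    fand (fall fun a => IsFun (e a)) <|
    fand (fall fun a => fall fun b => fall fun _ : a ≤ b => fex fun l : List W =>
      fall fun x => fall fun _ : x < a => fall fun _ : x ∉ l => EqN (e a x) (e b x)) <|
    fall fun A : W → List (W × ℕ) → Set P => fex fun c => fall fun σ : List (W × ℕ) =>
      fOr (fex fun a => fex fun τ => fand (meets (A a τ)) (fand (fground (a ≤ c))
          (fall fun x => fall fun _ : x < a => EqN (ovN τ (e a) x) (ovN σ (e c) x))))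
        (fall fun a => fall fun τ => fimp (meets (A a τ)) (fnot (fand (fground (c ≤ a))
          (fall fun x => fall fun _ : x < c => EqN (ovN τ (e a) x) (ovN σ (e c) x)))))

/-- The forcing translation of `Meag W`. -/
def MeagN (P : Type) [Preorder P] (W : Type) : Set P :=
  fall fun F : W → ℕ → Set P => fex fun z : ℕ → Set P => fall fun a => fex fun m =>
    fall fun n => fall fun _ : m ≤ n => fex fun k => fand (fground (n ≤ k ∧ k < 2 * n))
      (fnot (fiff (meets (F a k)) (meets (z k))))

/-- The forcing translation of `Comb W`, clause by clause. -/
def CombN (P : Type) [Preorder P] (W : Type) [LinearOrder W] : Set P :=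
  fand (UncN P W) (fand (CohSouslinN P W) (MeagN P W))

end

end Pool.Agent.TH785.SD
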