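import Mathlib
import Pool.Agent.TH785.SD.Cj
import Pool.Agent.TH785.SD.Names

/-!
# The generic tree is a coherent Souslin tree
-/

set_option autoImplicit false

namespace Pool.Agent.TH785.SD

open Set MeasureTheory
open Pool.Agent.Helper669.Forcing

variable {W : Type} [LinearOrder W] {Ω : Type} [MeasurableSpace Ω] {μ : Measure Ω}

/-- the conditions -/
abbrev PP (W : Type) [LinearOrder W] {Ω : Type} [MeasurableSpace Ω] (μ : Measure Ω) : Type :=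
  Cj W × Bs μ

theorem mem_fOr {P : Type} [Preorder P] {φ ψ : Set P} {p : P} :
    p ∈ fOr φ ψ ↔ ∀ q ≤ p, ∃ r ≤ q, r ∈ φ ∨ r ∈ ψ := by
  simp only [fOr, fnot, fand, Set.mem_ofPred_eq, not_and_or, not_forall, not_not]
  constructor
  · intro h q hq
    rcases h q hq with ⟨r, hr, h'⟩ | ⟨r, hr, h'⟩
    · exact ⟨r, hr, Or.inl h'⟩
    · exact ⟨r, hr, Or.inr h'⟩
  · intro h q hq
    obtain ⟨r, hr, h' | h'⟩ := h q hq
    · exact Or.inl ⟨r, hr, h'⟩
    · exact Or.inr ⟨r, hr, h'⟩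

theorem meets_of_mem' {P : Type} [Preorder P] {N : Set P} {p q : P} (h : p ∈ N) (hq : q ≤ p) :
    q ∈ meets N := fun r hr => ⟨r, le_rfl, p, h, hr.trans hq⟩

/-- the name of the generic sequence of functions -/
def gE (μ : Measure Ω) (a x : W) (n : ℕ) : Set (PP W μ) :=
  {p | a ≤ p.1.ht ∧ x < a ∧ p.1.e a x = n ∨ ¬ x < a ∧ n = 0}

theorem mem_meets_gE {p : PP W μ} {a x : W} {n : ℕ} (ha : a ≤ p.1.ht) (hx : x < a) :
    p ∈ meets (gE μ a x n) ↔ p.1.e a x = n := by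
  constructor
  · intro h
    obtain ⟨r, hr, s, hs, hrs⟩ := h p le_rfl
    rcases hs with ⟨h1, h2, h3⟩ | ⟨h1, _⟩
    · have e1 : r.1.e a x = p.1.e a x := hr.1.2 a ha x hx
      have e2 : r.1.e a x = s.1.e a x := hrs.1.2 a h1 x hx
      rw [← e1, e2, h3]
    · exact absurd hx h1
  · intro h
    exact meets_of_mem' (p := p) (Or.inl ⟨ha, hx, h⟩) le_rfl

theorem mem_meets_gE' {p : PP W μ} {a x : W} {n : ℕ} (hx : ¬ x < a) :
    p ∈ meets (gE μ a x n) ↔ n = 0 := by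
  constructor
  · intro h
    obtain ⟨r, hr, s, hs, hrs⟩ := h p le_rfl
    rcases hs with ⟨_, h2, _⟩ | ⟨_, h1⟩
    · exact absurd h2 hx
    · exact h1
  · intro h
    exact meets_of_mem' (p := p) (Or.inr ⟨hx, h⟩) le_rfl

/-- values of the modified functions -/
theorem mem_meets_ovN {p : PP W μ} {a x : W} {n : ℕ} {σ : List (W × ℕ)} (ha : a ≤ p.1.ht)
    (hx : x < a) : p ∈ meets (ovN σ (gE μ a) x n) ↔ ov σ (p.1.e a) x = n := by
  induction σ with
  | nil => exact mem_meets_gE ha hx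
  | cons q l ih =>
    by_cases h : x = q.1
    · simp only [ovN, ov, if_pos h]
      constructor
      · intro h1
        obtain ⟨r, hr, s, hs, hrs⟩ := h1 p le_rfl
        exact (mem_fground.1 hs).symm
      · intro h1
        exact meets_of_mem' (p := p) (mem_fground.2 h1.symm) le_rfl
    · simp only [ovN, ov, if_neg h]
      exact ih

theorem mem_EqN_ovN {p : PP W μ} {a c x : W} {σ τ : List (W × ℕ)} (ha : a ≤ p.1.ht)
    (hc : c ≤ p.1.ht) (hxa : x < a) (hxc : x < c) :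
    p ∈ EqN (ovN τ (gE μ a) x) (ovN σ (gE μ c) x) ↔ ov τ (p.1.e a) x = ov σ (p.1.e c) x := by
  have hval : ∀ q ≤ p, ∀ b ≤ p.1.ht, x < b → ∀ ρ : List (W × ℕ),
      ov ρ (q.1.e b) x = ov ρ (p.1.e b) x := by
    intro q hq b hb hxb ρ
    exact ov_congr (hq.1.2 b hb x hxb)
  constructor
  · intro h
    have h1 := (h (ov τ (p.1.e a) x)).1
    obtain ⟨r, hr, h2⟩ := mem_fimp.1 h1 p le_rfl ((mem_meets_ovN ha hxa).2 rfl)
    rw [mem_meets_ovN (hc.trans hr.1.1) hxc, hval r hr c hc hxc] at h2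
    exact h2.symm
  · intro h n
    refine ⟨mem_fimp.2 fun q hq h1 => ⟨q, le_rfl, ?_⟩, mem_fimp.2 fun q hq h1 => ⟨q, le_rfl, ?_⟩⟩
    · rw [mem_meets_ovN (ha.trans hq.1.1) hxa, hval q hq a ha hxa] at h1
      rw [mem_meets_ovN (hc.trans hq.1.1) hxc, hval q hq c hc hxc, ← h, h1]
    · rw [mem_meets_ovN (hc.trans hq.1.1) hxc, hval q hq c hc hxc] at h1
      rw [mem_meets_ovN (ha.trans hq.1.1) hxa, hval q hq a ha hxa, h, h1]

/-- a node of top level is decided -/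
def Dec (A : W → List (W × ℕ) → Set (PP W μ)) (σ : List (W × ℕ)) (j : Cj W) (b : Bs μ) : Prop :=
  (∃ a τ, a ≤ j.ht ∧ ((j, b) : PP W μ) ∈ meets (A a τ) ∧
    ∀ x, x < a → ov τ (j.e a) x = ov σ (j.e j.ht) x) ∨
  ∀ a τ, ∀ q : PP W μ, q ≤ (j, b) → a ≤ q.1.ht → q ∈ meets (A a τ) →
    ¬ (j.ht ≤ a ∧ ∀ x, x < j.ht → ov τ (q.1.e a) x = ov σ (j.e j.ht) x)

theorem Dec.mono1 {A : W → List (W × ℕ) → Set (PP W μ)} {σ : List (W × ℕ)} {i j : Cj W}
    {b : Bs μ} (hij : Rt i j) (h : Dec A σ j b) : Dec A σ i b := by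
  rcases h with ⟨a, τ, h1, h2, h3⟩ | h
  · refine Or.inl ⟨a, τ, h1.trans hij.1.1, down_meets _ _ h2 _ ⟨hij.1, le_rfl⟩, fun x hx => ?_⟩
    rw [ov_congr (σ := τ) (hij.1.2 a h1 x hx), h3 x hx]
    exact ov_congr (hij.2 x (hx.trans_le h1)).symm
  · right
    rintro a τ q hq haq hqA ⟨h1, h2⟩
    refine h a τ q (hq.trans ⟨hij.1, le_rfl⟩) haq hqA ⟨hij.1.1.trans h1, fun x hx => ?_⟩
    rw [h2 x (hx.trans_le hij.1.1)]
    exact ov_congr (hij.2 x hx)

theorem Dec.mono2 {A : W → List (W × ℕ) → Set (PP W μ)} {σ : List (W × ℕ)} {j : Cj W}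
    {b c : Bs μ} (hcb : c ≤ b) (h : Dec A σ j b) : Dec A σ j c := by
  rcases h with ⟨a, τ, h1, h2, h3⟩ | h
  · exact Or.inl ⟨a, τ, h1, down_meets _ _ h2 _ ⟨le_rfl, hcb⟩, h3⟩
  · exact Or.inr fun a τ q hq => h a τ q (hq.trans ⟨le_rfl, hcb⟩)

theorem Dec.dense (hW : IsOm W) (A : W → List (W × ℕ) → Set (PP W μ)) {σ : List (W × ℕ)}
    (j : Cj W) (b : Bs μ) (hσ : ∀ p ∈ σ, p.1 < j.ht) : ∃ i, Rt i j ∧ ∃ c ≤ b, Dec A σ i c := by
  by_cases h : Dec A σ j b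
  · exact ⟨j, Rt.refl j, b, le_rfl, h⟩
  · simp only [Dec, not_or, not_forall, not_not] at h
    obtain ⟨-, a, τ, q, hq, haq, hqA, h1, h2⟩ := h
    obtain ⟨i, hi1, hi2, hi3, hi4⟩ := exists_redirect hW hq.1 hσ h1 haq h2
    refine ⟨i, hi2, q.2, hq.2, Or.inl ⟨a, τ, hi3, down_meets _ _ hqA _ ⟨hi1, le_rfl⟩, fun x hx => ?_⟩⟩
    exact (hi4 x hx).symm

/-- decided below every part -/
def Th (A : W → List (W × ℕ) → Set (PP W μ)) (b0 : Bs μ) (σ : List (W × ℕ)) (j : Cj W) : Prop :=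
  ∀ b ≤ b0, ∃ c ≤ b, Dec A σ j c

theorem scRt (hW : IsOm W) [WellFoundedLT W] : SC (Rt : Cj W → Cj W → Prop) :=
  ⟨Rt.refl, fun _ _ _ => Rt.trans, fun s hs => by
    obtain ⟨l, hl, -⟩ := exists_lim hW hs
    exact ⟨l, hl⟩⟩

theorem Th.mono {A : W → List (W × ℕ) → Set (PP W μ)} {b0 : Bs μ} {σ : List (W × ℕ)} {i j : Cj W}
    (hij : Rt i j) (h : Th A b0 σ j) : Th A b0 σ i := by
  intro b hb
  obtain ⟨c, hc1, hc2⟩ := h b hb
  exact ⟨c, hc1, hc2.mono1 hij⟩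

theorem countable_lists (hW : IsOm W) (a : W) : {σ : List (W × ℕ) | ∀ p ∈ σ, p.1 < a}.Countable := by
  haveI : Countable (Set.Iio a) := hW.hc a
  let Φ : List (Set.Iio a × ℕ) → List (W × ℕ) := fun τ => τ.map fun p => (p.1.1, p.2)
  refine (countable_range Φ).mono ?_
  intro σ hσ
  refine ⟨σ.attach.map fun p => (⟨p.1.1, hσ p.1 p.2⟩, p.1.2), ?_⟩
  show List.map _ _ = σ
  rw [List.map_map]
  conv_rhs => rw [← List.attach_map_subtype_val σ]
  rfl

variable [IsFiniteMeasure μ]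

/-- all nodes with the support below the height can be decided -/
theorem exists_all (hW : IsOm W) [WellFoundedLT W] (A : W → List (W × ℕ) → Set (PP W μ))
    (b0 : Bs μ) (j0 : Cj W) : ∃ j, Rt j j0 ∧ j0.ht < j.ht ∧
      ∀ σ : List (W × ℕ), (∀ p ∈ σ, p.1 < j0.ht) → Th A b0 σ j := by
  have hR := scRt hW
  obtain ⟨f, hf⟩ := (countable_lists hW j0.ht).exists_eq_range ⟨[], by simp⟩
  have hfm : ∀ n, ∀ p ∈ f n, p.1 < j0.ht := by
    intro n
    have h1 : f n ∈ {σ : List (W × ℕ) | ∀ p ∈ σ, p.1 < j0.ht} := by rw [hf]; exact ⟨n, rfl⟩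
    exact h1
  obtain ⟨j, hj1, hj2⟩ := hR.goals (G := fun n j => Th A b0 (f n) j) (fun n i j => Th.mono)
    (j0 := j0) (fun n j hj => by
      obtain ⟨i, hi1, hi2⟩ := hR.decide (D := Dec A (f n)) (fun i j b h => Dec.mono1 h)
        (fun j b c h => Dec.mono2 h) (j0 := j) (b0 := b0) (fun i hi b _ =>
          Dec.dense hW A i b fun p hp => (hfm n p hp).trans_le (hi.trans hj).1.1)
      exact ⟨i, hi1, hi2⟩)
  obtain ⟨i, hi1, hi2⟩ := exists_high hW j j.ht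
  refine ⟨i, hi1.trans hj1, hj1.1.1.trans_lt hi2, fun σ hσ => ?_⟩
  have h1 : σ ∈ range f := by rw [← hf]; exact hσ
  obtain ⟨n, rfl⟩ := h1
  exact (hj2 n).mono hi1

/-- sealing -/
theorem exists_seal (hW : IsOm W) [WellFoundedLT W] (A : W → List (W × ℕ) → Set (PP W μ))
    (b0 : Bs μ) (j0 : Cj W) : ∃ j, Rt j j0 ∧
      ∀ σ : List (W × ℕ), (∀ p ∈ σ, p.1 < j.ht) → Th A b0 σ j := by
  choose g hg1 hg2 hg3 using exists_all hW A b0
  let s : ℕ → Cj W := fun n => g^[n] j0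
  have hs : ∀ n, Rt (s (n + 1)) (s n) := by
    intro n
    simp only [s, Function.iterate_succ_apply']
    exact hg1 _
  have hmono := fun m n (h : m ≤ n) => (scRt hW).seq_le hs h
  obtain ⟨l, hl1, hl2⟩ := exists_lim hW hs
  refine ⟨l, hl1 0, fun σ hσ => ?_⟩
  have h1 : ∃ n, ∀ p ∈ σ, p.1 < (s n).ht := by
    clear_value s
    induction σ with
    | nil => exact ⟨0, by simp⟩
    | cons q σ ih =>
      obtain ⟨n, hn⟩ := ih (fun p hp => hσ p (by simp [hp]))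
      obtain ⟨m, hm⟩ := hl2 q.1 (hσ q (by simp))
      refine ⟨max n m, fun p hp => ?_⟩
      rcases List.mem_cons.1 hp with h | h
      · rw [h]
        exact hm.trans_le (hmono _ _ (le_max_right n m)).1.1
      · exact (hn p h).trans_le (hmono _ _ (le_max_left n m)).1.1
  obtain ⟨n, hn⟩ := h1
  have h2 := hg3 (s n) σ hn
  have h3 : g (s n) = s (n + 1) := by simp only [s, Function.iterate_succ_apply']
  rw [h3] at h2
  exact h2.mono (hl1 (n + 1))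

end Pool.Agent.TH785.SD
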