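import Mathlib
import Pool.Agent.TH785.SD.Seal

/-!
# Every condition forces that there is a coherent Souslin tree and that `W` is uncountable
-/

set_option autoImplicit false

namespace Pool.Agent.TH785.SD

open Set MeasureTheory
open Pool.Agent.Helper669.Forcing

variable {W : Type} [LinearOrder W] {Ω : Type} [MeasurableSpace Ω] {μ : Measure Ω}

theorem exists_high' (hW : IsOm W) (q : PP W μ) (a : W) : ∃ r ≤ q, a ≤ r.1.ht := by
  obtain ⟨i, hi1, hi2⟩ := exists_high hW q.1 a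
  exact ⟨(i, q.2), ⟨hi1.1, le_rfl⟩, hi2.le⟩

theorem filter_ov {σ : List (W × ℕ)} {g : W → ℕ} {c x : W} (hx : x < c) :
    ov (σ.filter fun p => decide (p.1 < c)) g x = ov σ g x := by
  induction σ with
  | nil => rfl
  | cons p l ih =>
    by_cases h : p.1 < c
    · rw [List.filter_cons_of_pos (by simpa using h)]
      simp only [ov]
      rw [ih]
    · rw [List.filter_cons_of_neg (by simpa using h), ih]
      have h1 : x ≠ p.1 := by
        rintro rfl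
        exact h hx
      simp only [ov, if_neg h1]

theorem forces_fun (hW : IsOm W) (p : PP W μ) (a : W) : p ∈ IsFun (gE μ a) := by
  refine ⟨fun x => mem_fex.2 fun q _ => ?_, fun x y y' => mem_fimp.2 fun q _ hq => ?_⟩
  · by_cases hx : x < a
    · obtain ⟨r, hr1, hr2⟩ := exists_high' hW q a
      exact ⟨r, hr1, _, (mem_meets_gE hr2 hx).2 rfl⟩
    · exact ⟨q, le_rfl, 0, (mem_meets_gE' hx).2 rfl⟩
  · by_cases hx : x < a
    · obtain ⟨r, hr1, hr2⟩ := exists_high' hW q a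
      have h1 := (mem_meets_gE hr2 hx).1 (down_meets _ _ hq.1 _ hr1)
      have h2 := (mem_meets_gE hr2 hx).1 (down_meets _ _ hq.2 _ hr1)
      exact ⟨r, hr1, mem_fground.2 (h1.symm.trans h2)⟩
    · have h1 := (mem_meets_gE' hx).1 hq.1
      have h2 := (mem_meets_gE' hx).1 hq.2
      exact ⟨q, le_rfl, mem_fground.2 (h1.trans h2.symm)⟩

theorem forces_coh (hW : IsOm W) (p : PP W μ) : p ∈ fall fun a : W => fall fun b => fall
    fun _ : a ≤ b => fex fun l : List W => fall fun x => fall fun _ : x < a =>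
      fall fun _ : x ∉ l => EqN (gE μ a x) (gE μ b x) := by
  intro a b hab
  refine mem_fex.2 fun q _ => ?_
  obtain ⟨r, hr1, hr2⟩ := exists_high' hW q b
  have hf := r.1.coh a b hab hr2
  refine ⟨r, hr1, hf.toFinset.toList, fun x hx hxl => ?_⟩
  have h1 := mem_EqN_ovN (p := r) (a := a) (c := b) (x := x) (σ := []) (τ := []) (hab.trans hr2)
    hr2 hx (hx.trans_le hab)
  refine h1.2 ?_
  show r.1.e a x = r.1.e b x
  by_contra hcon
  apply hxl
  rw [Finset.mem_toList, Set.Finite.mem_toFinset]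
  exact ⟨hx, hcon⟩

theorem forces_souslin [IsFiniteMeasure μ] (hW : IsOm W) [WellFoundedLT W] (p : PP W μ) :
    p ∈ CohSouslinN (PP W μ) W := by
  refine mem_fex.2 fun q0 _ => ⟨q0, le_rfl, gE μ, fun a => forces_fun hW q0 a,
    forces_coh hW q0, ?_⟩
  intro A
  refine mem_fex.2 fun q _ => ?_
  obtain ⟨j, hj1, hj2⟩ := exists_seal hW A q.2 q.1
  refine ⟨(j, q.2), ⟨hj1.1, le_rfl⟩, j.ht, fun σ => mem_fOr.2 fun q1 hq1 => ?_⟩
  obtain ⟨b, hb1, hb2⟩ := hj2 (σ.filter fun p => decide (p.1 < j.ht)) (by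
    intro p hp
    simpa using (List.mem_filter.1 hp).2) q1.2 hq1.2
  let r : PP W μ := (q1.1, b)
  have hr1 : r ≤ q1 := ⟨le_rfl, hb1⟩
  have hrj : r ≤ (j, b) := ⟨hq1.1, le_rfl⟩
  refine ⟨r, hr1, ?_⟩
  have htop : ∀ q ≤ r, ∀ x, x < j.ht → ∀ ρ : List (W × ℕ), ov ρ (q.1.e j.ht) x = ov ρ (j.e j.ht) x :=
    fun q hq x hx ρ => ov_congr ((hq.1.trans hq1.1).2 j.ht le_rfl x hx)
  rcases hb2 with ⟨a, τ, h1, h2, h3⟩ | h
  · left
    refine mem_fex.2 fun q2 hq2 => ⟨q2, le_rfl, a, mem_fex.2 fun q3 hq3 => ⟨q3, le_rfl, τ, ?_, h1, ?_⟩⟩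
    · exact down_meets _ _ h2 _ ((hq3.trans hq2).trans hrj)
    · intro x hx
      have hle : q3 ≤ r := hq3.trans hq2
      have hh : j.ht ≤ q3.1.ht := (hle.1.trans hq1.1).1
      refine (mem_EqN_ovN (p := q3) (h1.trans hh) hh hx (hx.trans_le h1)).2 ?_
      rw [htop q3 hle x (hx.trans_le h1), ← filter_ov (σ := σ) (hx.trans_le h1), ← h3 x hx]
      exact ov_congr ((hle.1.trans hq1.1).2 a h1 x hx)
  · right
    intro a τ
    refine mem_fimp.2 fun q2 hq2 hq2A => ⟨q2, le_rfl, fun q3 hq3 hcon => ?_⟩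
    obtain ⟨hca, hcon2⟩ := hcon
    have hca' : j.ht ≤ a := hca
    obtain ⟨q4, hq4, hq4a⟩ := exists_high' hW q3 a
    have hle : q4 ≤ r := (hq4.trans hq3).trans hq2
    have hh : j.ht ≤ q4.1.ht := (hle.1.trans hq1.1).1
    refine h a τ q4 (hle.trans hrj) hq4a (down_meets _ _ hq2A _ (hq4.trans hq3)) ⟨hca', fun x hx => ?_⟩
    have h5 := hcon2 x hx
    have h6 : q4 ∈ EqN (ovN τ (gE μ a) x) (ovN σ (gE μ j.ht) x) := by
      intro n
      exact ⟨down_fimp _ _ _ (h5 n).1 _ hq4, down_fimp _ _ _ (h5 n).2 _ hq4⟩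
    have h7 := (mem_EqN_ovN (p := q4) hq4a hh (hx.trans_le hca') hx).1 h6
    rw [h7, htop q4 hle x hx, filter_ov hx]

theorem exists_Rt (hW : IsOm W) {j j' : Cj W} (hj : j' ≤ j) : ∃ i : Cj W, i ≤ j' ∧ Rt i j := by
  obtain ⟨i, h1, h2, -⟩ := exists_redirect hW hj (σ := []) (τ := []) (a := j.ht) (by simp) le_rfl
    hj.1 (fun x hx => hj.2 j.ht le_rfl x hx)
  exact ⟨i, h1, h2⟩

/-- Deciding countably many statements by the measure algebra. -/
theorem decideN [IsFiniteMeasure μ] (hW : IsOm W) [WellFoundedLT W] {D : ℕ → Set (PP W μ)}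
    (hD : ∀ n, Down (D n)) {j0 : Cj W} {b0 : Bs μ}
    (hd : ∀ n, ∀ q : PP W μ, q ≤ (j0, b0) → ∃ r ≤ q, r ∈ D n) :
    ∃ j ≤ j0, ∀ n, ∀ b ≤ b0, ∃ c ≤ b, ((j, c) : PP W μ) ∈ D n := by
  have hR := scRt hW
  obtain ⟨j, hj1, hj2⟩ := hR.goals (G := fun n j => ∀ b ≤ b0, ∃ c ≤ b, ((j, c) : PP W μ) ∈ D n)
    (fun n i j hij hG b hb => by
      obtain ⟨c, hc1, hc2⟩ := hG b hb
      exact ⟨c, hc1, hD n _ hc2 _ ⟨hij.1, le_rfl⟩⟩) (j0 := j0) (fun n j hj => by
      obtain ⟨i, hi1, hi2⟩ := hR.decide (D := fun j c => ((j, c) : PP W μ) ∈ D n)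
        (fun i j b hij h => hD n _ h _ ⟨hij.1, le_rfl⟩)
        (fun j b c hcb h => hD n _ h _ ⟨le_rfl, hcb⟩) (j0 := j) (b0 := b0) (fun i hi b hb => by
          obtain ⟨r, hr1, hr2⟩ := hd n (i, b) ⟨(hi.trans hj).1, hb⟩
          obtain ⟨k, hk1, hk2⟩ := exists_Rt hW (show r.1 ≤ i from hr1.1)
          exact ⟨k, hk2, r.2, hr1.2, hD n _ hr2 _ ⟨hk1, le_rfl⟩⟩)
      exact ⟨i, hi1, hi2⟩)
  exact ⟨j, hj1.1, hj2⟩

theorem meets_or_not {P : Type} [Preorder P] (N : Set P) (q : P) :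
    ∃ r ≤ q, r ∈ meets N ∨ r ∈ fnot (meets N) := by
  by_cases h : ∃ r ≤ q, r ∈ meets N
  · obtain ⟨r, h1, h2⟩ := h
    exact ⟨r, h1, Or.inl h2⟩
  · push Not at h
    exact ⟨q, le_rfl, Or.inr h⟩

theorem forces_unc [IsFiniteMeasure μ] (hW : IsOm W) [WellFoundedLT W] (p : PP W μ) :
    p ∈ UncN (PP W μ) W := by
  classical
  intro F
  refine mem_fimp.2 fun q _ hq => ?_
  have huniq : ∀ n a b, ∀ r ≤ q, r ∈ meets (F n a) → r ∈ meets (F n b) → a = b := by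
    intro n a b r hr h1 h2
    obtain ⟨r1, hr1, h3⟩ := mem_fimp.1 (hq n a b) r hr h1
    obtain ⟨r2, hr2, h4⟩ := mem_fimp.1 h3 r1 le_rfl (down_meets _ _ h2 _ hr1)
    exact h4
  let D : ℕ → Set (PP W μ) := fun n =>
    {r | (∃ a, r ∈ meets (F n a)) ∨ ∀ a, r ∈ fnot (meets (F n a))}
  obtain ⟨j, hj1, hj2⟩ := decideN hW (D := D) (by
    intro n r hr s hs
    rcases hr with ⟨a, ha⟩ | h
    · exact Or.inl ⟨a, down_meets _ _ ha _ hs⟩
    · exact Or.inr fun a => down_fnot _ _ (h a) _ hs) (j0 := q.1) (b0 := q.2) (by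
    intro n r _
    by_cases h : ∃ s ≤ r, ∃ a, s ∈ meets (F n a)
    · obtain ⟨s, h1, h2⟩ := h
      exact ⟨s, h1, Or.inl h2⟩
    · push Not at h
      exact ⟨r, le_rfl, Or.inr fun a s hs => h s hs a⟩)
  -- the possible values
  let V : ℕ → Set W := fun n => {a | ∃ b ≤ q.2, ((j, b) : PP W μ) ∈ meets (F n a)}
  have hV : ∀ n, (V n).Countable := by
    intro n
    choose B hB1 hB2 using fun a : V n => a.2
    have hdisj : Pairwise (Function.onFun (AEDisjoint μ) fun a : V n => (B a).1) := by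
      intro a a' hne
      by_contra hcon
      let c : Bs μ := ⟨(B a).1 ∩ (B a').1, (B a).2.1.inter (B a').2.1, hcon⟩
      have h1 : ((j, c) : PP W μ) ∈ meets (F n a) := down_meets _ _ (hB2 a) _
        ⟨le_rfl, inter_subset_left⟩
      have h2 : ((j, c) : PP W μ) ∈ meets (F n a') := down_meets _ _ (hB2 a') _
        ⟨le_rfl, inter_subset_right⟩
      exact hne (Subtype.ext (huniq n a a' (j, c)
        ⟨hj1, (Set.Subset.trans inter_subset_left (hB1 a) : c.1 ⊆ q.2.1)⟩ h1 h2))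
    have h3 := Measure.countable_meas_pos_of_disjoint_of_meas_iUnion_ne_top₀ μ
      (As := fun a : V n => (B a).1) (fun a => (B a).2.1.nullMeasurableSet) hdisj
      (measure_ne_top _ _)
    have h4 : {i : V n | 0 < μ (B i).1} = univ := by
      ext i
      simp only [mem_ofPred_eq, mem_univ, iff_true]
      exact pos_iff_ne_zero.2 (B i).2.2
    rw [h4, Set.countable_univ_iff] at h3
    exact h3
  obtain ⟨a, ha⟩ := hW.bdd (countable_iUnion hV)
  refine ⟨(j, q.2), ⟨hj1, le_rfl⟩, mem_fex.2 fun r hr => ⟨r, le_rfl, a, fun n s hs hsa => ?_⟩⟩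
  have hle : s ≤ (j, q.2) := hs.trans hr
  obtain ⟨c, hc1, hc2⟩ := hj2 n s.2 hle.2
  have hsc : ((s.1, c) : PP W μ) ≤ s := ⟨le_rfl, hc1⟩
  have hscj : ((s.1, c) : PP W μ) ≤ (j, c) := ⟨hle.1, le_rfl⟩
  rcases hc2 with ⟨a', ha'⟩ | h
  · have h1 : a' ∈ ⋃ n, V n := mem_iUnion.2 ⟨n, c, hc1.trans hle.2, ha'⟩
    have h2 := ha a' h1
    have h3 := huniq n a a' (s.1, c) (hsc.trans (hle.trans ⟨hj1, le_rfl⟩))
      (down_meets _ _ hsa _ hsc) (down_meets _ _ ha' _ hscj)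
    rw [h3] at h2
    exact lt_irrefl _ h2
  · exact h a _ hscj (down_meets _ _ hsa _ hsc)

end Pool.Agent.TH785.SD
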