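import Mathlib

/-!
# The product measure on a power of the two point space
-/

set_option autoImplicit false

namespace Pool.Agent.TH785.SD

open MeasureTheory Set

open scoped ENNReal

/-- the fair coin -/
noncomputable def coin : Measure Bool := (2⁻¹ : ℝ≥0∞) • (Measure.dirac true + Measure.dirac false)

instance : IsProbabilityMeasure coin := by
  constructor
  simp only [coin, Measure.smul_apply, Measure.add_apply, measure_univ, smul_eq_mul]
  rw [one_add_one_eq_two]
  exact ENNReal.inv_mul_cancel (by norm_num) (by norm_num)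

theorem coin_not : coin.map (fun b => !b) = coin := by
  have h : Measurable (fun b : Bool => !b) := measurable_from_top
  simp only [coin, Measure.map_smul, Measure.map_add _ _ h, Measure.map_dirac' h]
  congr 1
  exact add_comm _ _

variable {K : Type}

/-- the sample space -/
abbrev Om (K : Type) : Type := K × ℕ → Bool

/-- the product measure -/
noncomputable def mu (K : Type) : Measure (Om K) := Measure.infinitePi fun _ : K × ℕ => coin

instance : IsProbabilityMeasure (mu K) := by
  unfold mu
  infer_instance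

/-- flipping the coordinates `(κ, k)` with `k ∈ s` -/
noncomputable def flip (κ : K) (s : Finset ℕ) (w : Om K) : Om K := by
  classical
  exact fun p => if p.1 = κ ∧ p.2 ∈ s then !(w p) else w p

theorem measurable_flip (κ : K) (s : Finset ℕ) : Measurable (flip κ s) := by
  classical
  rw [measurable_pi_iff]
  intro p
  unfold flip
  by_cases h : p.1 = κ ∧ p.2 ∈ s
  · simp only [if_pos h]
    exact (measurable_from_top (f := fun b : Bool => !b)).comp (measurable_pi_apply p)
  · simp only [if_neg h]
    exact measurable_pi_apply p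

theorem map_flip (κ : K) (s : Finset ℕ) : (mu K).map (flip κ s) = mu K := by
  classical
  have h := Measure.infinitePi_map_pi (μ := fun _ : K × ℕ => coin)
    (f := fun p b => if p.1 = κ ∧ p.2 ∈ s then !b else b) (fun p => measurable_from_top)
  have h1 : (fun p : K × ℕ => coin.map fun b => if p.1 = κ ∧ p.2 ∈ s then !b else b) =
      fun _ => coin := by
    funext p
    by_cases hp : p.1 = κ ∧ p.2 ∈ s
    · simp only [if_pos hp]
      exact coin_not
    · simp only [if_neg hp]
      exact Measure.map_id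
  rw [h1] at h
  exact h

/-- a set depends only on the coordinates in `S × ℕ` -/
def DepOn (S : Set K) (e : Set (Om K)) : Prop :=
  ∀ w w' : Om K, (∀ p : K × ℕ, p.1 ∈ S → w p = w' p) → (w ∈ e ↔ w' ∈ e)

theorem exists_support (e : Set (Om K)) (he : MeasurableSet e) : ∃ S : Set K, S.Countable ∧
    DepOn S e := by
  have h1 : MeasurableSpace.pi (X := fun _ : K × ℕ => Bool) ≤
      { MeasurableSet' := fun e => ∃ S : Set K, S.Countable ∧ DepOn S e
        measurableSet_empty := ⟨∅, countable_empty, fun _ _ _ => Iff.rfl⟩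
        measurableSet_compl := fun e he => by
          obtain ⟨S, hS1, hS2⟩ := he
          exact ⟨S, hS1, fun w w' h => not_congr (hS2 w w' h)⟩
        measurableSet_iUnion := fun f hf => by
          choose S hS1 hS2 using hf
          refine ⟨⋃ n, S n, countable_iUnion hS1, fun w w' h => ?_⟩
          simp only [mem_iUnion]
          exact exists_congr fun n => hS2 n w w' fun p hp => h p (mem_iUnion.2 ⟨n, hp⟩) } := by
    refine iSup_le fun p => ?_
    rw [MeasurableSpace.comap_le_iff_le_map]
    intro t _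
    refine ⟨{p.1}, countable_singleton _, fun w w' h => ?_⟩
    show w p ∈ t ↔ w' p ∈ t
    rw [h p rfl]
  exact h1 e he

/-- the bad event -/
def bad (κ : K) (e : ℕ → Set (Om K)) (n : ℕ) : Set (Om K) :=
  {w | ∀ k ∈ Finset.Ico n (2 * n), (w ∈ e k ↔ w (κ, k) = true)}

theorem measurable_bad (κ : K) {e : ℕ → Set (Om K)} (he : ∀ k, MeasurableSet (e k)) (n : ℕ) :
    MeasurableSet (bad κ e n) := by
  have h1 : bad κ e n = ⋂ k ∈ Finset.Ico n (2 * n), {w | (w ∈ e k ↔ w (κ, k) = true)} := by
    ext w
    simp only [bad, mem_ofPred_eq, mem_iInter]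
  rw [h1]
  refine Finset.measurableSet_biInter _ fun k _ => ?_
  have h2 : MeasurableSet {w : Om K | w (κ, k) = true} := by
    have h4 : Measurable (fun w : Om K => w (κ, k)) := measurable_pi_apply (κ, k)
    exact h4 (measurableSet_singleton true)
  have h3 : {w : Om K | (w ∈ e k ↔ w (κ, k) = true)} =
      (e k ∩ {w : Om K | w (κ, k) = true}) ∪ ((e k)ᶜ ∩ {w : Om K | w (κ, k) = true}ᶜ) := by
    ext w
    simp only [mem_ofPred_eq, mem_union, mem_inter_iff, mem_compl_iff]
    tauto
  rw [h3]
  exact ((he k).inter h2).union ((he k).compl.inter h2.compl)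

theorem measure_bad_le (κ : K) {e : ℕ → Set (Om K)} (he : ∀ k, MeasurableSet (e k))
    (hd : ∀ k, ∃ S : Set K, κ ∉ S ∧ DepOn S (e k)) (n : ℕ) :
    mu K (bad κ e n) ≤ (2⁻¹ : ℝ≥0∞) ^ n := by
  classical
  let Es : Finset ℕ → Set (Om K) := fun s => flip κ s ⁻¹' (bad κ e n)
  have hmeas : ∀ s, MeasurableSet (Es s) := fun s => measurable_flip κ s (measurable_bad κ he n)
  have hEs : ∀ s, mu K (Es s) = mu K (bad κ e n) := by
    intro s
    have h := Measure.map_apply (measurable_flip κ s) (measurable_bad κ he n) (μ := mu K)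
    rw [map_flip] at h
    exact h.symm
  have hmem : ∀ s w, w ∈ Es s ↔ ∀ k ∈ Finset.Ico n (2 * n),
      (w ∈ e k ↔ (if k ∈ s then !(w (κ, k)) else w (κ, k)) = true) := by
    intro s w
    show (∀ k ∈ Finset.Ico n (2 * n), (flip κ s w ∈ e k ↔ flip κ s w (κ, k) = true)) ↔ _
    refine forall₂_congr fun k _ => ?_
    obtain ⟨S, hS1, hS2⟩ := hd k
    have h1 : flip κ s w ∈ e k ↔ w ∈ e k := by
      refine hS2 _ _ fun p hp => ?_
      have h2 : ¬ (p.1 = κ ∧ p.2 ∈ s) := fun h => hS1 (h.1 ▸ hp)
      simp only [flip, if_neg h2]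
    rw [h1]
    simp only [flip, true_and]
  have hdisj : ((Finset.Ico n (2 * n)).powerset : Set (Finset ℕ)).PairwiseDisjoint Es := by
    intro s hs s' hs' hne
    rw [Function.onFun, Set.disjoint_left]
    intro w hw hw'
    apply hne
    ext k
    by_cases hk : k ∈ Finset.Ico n (2 * n)
    · have h1 := (hmem s w).1 hw k hk
      have h2 := (hmem s' w).1 hw' k hk
      by_cases h3 : k ∈ s <;> by_cases h4 : k ∈ s'
      · simp [h3, h4]
      · simp only [h3, h4, if_true, if_false] at h1 h2
        rw [h1] at h2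
        cases hh : w (κ, k) <;> simp [hh] at h2
      · simp only [h3, h4, if_true, if_false] at h1 h2
        rw [h1] at h2
        cases hh : w (κ, k) <;> simp [hh] at h2
      · simp [h3, h4]
    · have h1 : k ∉ s := fun h => hk (Finset.mem_powerset.1 hs h)
      have h2 : k ∉ s' := fun h => hk (Finset.mem_powerset.1 hs' h)
      simp [h1, h2]
  have h1 := measure_biUnion_finset hdisj (fun s _ => hmeas s) (μ := mu K)
  have h2 : (2 : ℝ≥0∞) ^ n * mu K (bad κ e n) ≤ 1 := by
    have h3 : ∑ s ∈ (Finset.Ico n (2 * n)).powerset, mu K (Es s) =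
        (2 : ℝ≥0∞) ^ n * mu K (bad κ e n) := by
      simp only [hEs, Finset.sum_const, Finset.card_powerset, Nat.card_Ico, nsmul_eq_mul]
      congr 1
      have : 2 * n - n = n := by omega
      rw [this]
      push_cast
      rfl
    rw [← h3, ← h1]
    exact prob_le_one
  have h4 : mu K (bad κ e n) = (2⁻¹ : ℝ≥0∞) ^ n * ((2 : ℝ≥0∞) ^ n * mu K (bad κ e n)) := by
    rw [← mul_assoc, ← mul_pow, ENNReal.inv_mul_cancel (by norm_num) (by norm_num), one_pow, one_mul]
  rw [h4]
  calc (2⁻¹ : ℝ≥0∞) ^ n * ((2 : ℝ≥0∞) ^ n * mu K (bad κ e n)) ≤ (2⁻¹ : ℝ≥0∞) ^ n * 1 := by gcongr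
    _ = _ := mul_one _

/-- Borel-Cantelli lemma -/
theorem exists_good (κ : K) {e : ℕ → Set (Om K)} (he : ∀ k, MeasurableSet (e k))
    (hd : ∀ k, ∃ S : Set K, κ ∉ S ∧ DepOn S (e k)) {b : Set (Om K)} (hb : mu K b ≠ 0) :
    ∃ m, mu K (b \ ⋃ n ∈ Set.Ici m, bad κ e n) ≠ 0 := by
  have hsum : ∑' n, mu K (bad κ e n) ≠ ⊤ := by
    have h1 : ∑' n, mu K (bad κ e n) ≤ ∑' n, (2⁻¹ : ℝ≥0∞) ^ n :=
      ENNReal.tsum_le_tsum fun n => measure_bad_le κ he hd n
    rw [ENNReal.tsum_geometric] at h1
    refine ne_top_of_le_ne_top ?_ h1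
    rw [ENNReal.one_sub_inv_two, inv_inv]
    norm_num
  have h2 := measure_limsup_atTop_eq_zero hsum
  by_contra hcon
  push Not at hcon
  apply hb
  have h3 : b ⊆ (⋃ m, b \ ⋃ n ∈ Set.Ici m, bad κ e n) ∪ Filter.limsup (bad κ e) Filter.atTop := by
    intro w hw
    by_cases hwl : w ∈ Filter.limsup (bad κ e) Filter.atTop
    · exact Or.inr hwl
    · left
      rw [mem_iUnion]
      by_contra hc
      push Not at hc
      apply hwl
      rw [Filter.limsup_eq_iInf_iSup_of_nat]
      simp only [iInf_eq_iInter, iSup_eq_iUnion, mem_iInter]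
      intro m
      by_contra hc2
      exact hc m ⟨hw, hc2⟩
  exact measure_mono_null h3 (measure_union_null (measure_iUnion_null hcon) h2)

end Pool.Agent.TH785.SD
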