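import Mathlib
import Pool.Agent.TH785.SD.Forces1
import Pool.Agent.TH785.SD.Meas

/-!
# Every condition forces that there are many meager sets; the final theorem on forcing
-/

set_option autoImplicit false

namespace Pool.Agent.TH785.SD

open Set MeasureTheory Cardinal
open Pool.Agent.Helper669.Forcing

variable {W : Type} [LinearOrder W]

/-- Below a suitable condition the named subset of `ℕ` is determined by the measure algebra. -/
theorem exists_names {Ω : Type} [MeasurableSpace Ω] {μ : Measure Ω} [IsProbabilityMeasure μ]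
    (hW : IsOm W) [WellFoundedLT W] (N : ℕ → Set (PP W μ)) (j0 : Cj W) :
    ∃ j ≤ j0, ∃ e : ℕ → Set Ω, (∀ k, MeasurableSet (e k)) ∧
      (∀ k, ∀ b : Bs μ, b.1 ⊆ e k → ((j, b) : PP W μ) ∈ meets (N k)) ∧
      ∀ k, ∀ b : Bs μ, Disjoint b.1 (e k) → ((j, b) : PP W μ) ∈ fnot (meets (N k)) := by
  let top : Bs μ := ⟨univ, MeasurableSet.univ, by simp⟩
  let D : ℕ → Set (PP W μ) := fun n => {r | r ∈ meets (N n) ∨ r ∈ fnot (meets (N n))}
  obtain ⟨j, hj1, hj2⟩ := decideN hW (D := D) (by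
    intro n r hr s hs
    rcases hr with h | h
    · exact Or.inl (down_meets _ _ h _ hs)
    · exact Or.inr (down_fnot _ _ h _ hs)) (j0 := j0) (b0 := top) (fun n r _ => meets_or_not (N n) r)
  let C : ℕ → Set Ω → Prop := fun k c => MeasurableSet c ∧
    ∀ b : Bs μ, b.1 ⊆ c → ((j, b) : PP W μ) ∈ meets (N k)
  have hC0 : ∀ k, C k ∅ := fun k => ⟨MeasurableSet.empty, fun b hb =>
    absurd (measure_mono_null hb measure_empty) b.2.2⟩
  have hCU : ∀ k, ∀ f : ℕ → Set Ω, (∀ n, C k (f n)) → C k (⋃ n, f n) := by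
    intro k f hf
    refine ⟨MeasurableSet.iUnion fun n => (hf n).1, fun b hb => ?_⟩
    intro q hq
    have h1 : ∃ n, μ (q.2.1 ∩ f n) ≠ 0 := by
      by_contra hcon
      push Not at hcon
      apply q.2.2.2
      have h2 : q.2.1 = ⋃ n, q.2.1 ∩ f n := by
        rw [← inter_iUnion]
        exact (inter_eq_left.2 (Set.Subset.trans hq.2 hb)).symm
      rw [h2]
      exact measure_iUnion_null hcon
    obtain ⟨n, hn⟩ := h1
    let c : Bs μ := ⟨q.2.1 ∩ f n, q.2.2.1.inter (hf n).1, hn⟩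
    have h2 := (hf n).2 c inter_subset_right
    have h3 : ((q.1, c) : PP W μ) ≤ (j, c) := ⟨hq.1, le_rfl⟩
    obtain ⟨r, hr, s, hs, hrs⟩ := h2 _ h3
    have hcq : ((q.1, c) : PP W μ) ≤ q := ⟨le_rfl, (inter_subset_left : c.1 ⊆ q.2.1)⟩
    exact ⟨r, hr.trans hcq, s, hs, hrs⟩
  choose e he1 he2 he3 using fun k => exhaust (μ := μ) (hC0 k) (fun c hc => hc.1) (hCU k)
  refine ⟨j, hj1, e, fun k => (he1 k).1, fun k => (he1 k).2, fun k b hb q hq hqN => ?_⟩
  obtain ⟨c, hc1, hc2⟩ := hj2 k q.2 (subset_univ _)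
  have hcq : ((q.1, c) : PP W μ) ≤ q := ⟨le_rfl, hc1⟩
  have hcj : ((q.1, c) : PP W μ) ≤ (j, c) := ⟨hq.1, le_rfl⟩
  rcases hc2 with h | h
  · have h1 : C k c.1 := ⟨c.2.1, fun d hd => down_meets _ _ h _ ⟨le_rfl, hd⟩⟩
    have h2 := he3 k c.1 h1
    have h3 : c.1 \ e k = c.1 := by
      rw [sdiff_eq_left]
      exact hb.mono_left (Set.Subset.trans hc1 hq.2)
    rw [h3] at h2
    exact c.2.2 h2
  · exact h _ hcj (down_meets _ _ hqN _ hcq)

/-- the index set of the random reals -/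
abbrev KK (W : Type) [LinearOrder W] : Type := Set (Cj W × W × ℕ)

theorem exists_index (hW : IsOm W) (S : Cj W → W → ℕ → Set (KK W))
    (hS : ∀ j a k, (S j a k).Countable) : ∃ κ : KK W, ∀ j a k, κ ∉ S j a k := by
  by_contra hcon
  push Not at hcon
  have hne : Nonempty W := by
    by_contra hc
    rw [not_nonempty_iff] at hc
    exact hW.hu countable_univ
  have hCj : Nonempty (Cj W) := by
    obtain ⟨a⟩ := hne
    exact ⟨⟨a, fun _ _ => 0, fun _ _ _ _ => by simp⟩⟩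
  have h1 : (univ : Set (KK W)) = ⋃ x : Cj W × W × ℕ, S x.1 x.2.1 x.2.2 := by
    ext κ
    simp only [mem_univ, mem_iUnion, true_iff]
    obtain ⟨j, a, k, h⟩ := hcon κ
    exact ⟨(j, a, k), h⟩
  have hinf : ℵ₀ ≤ #(Cj W × W × ℕ) := by
    rw [← Cardinal.infinite_iff]
    infer_instance
  have h2 : #(KK W) ≤ #(Cj W × W × ℕ) := by
    calc #(KK W) = #(univ : Set (KK W)) := Cardinal.mk_univ.symm
      _ = #(⋃ x : Cj W × W × ℕ, S x.1 x.2.1 x.2.2) := by rw [h1]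
      _ ≤ Cardinal.sum fun x : Cj W × W × ℕ => #(S x.1 x.2.1 x.2.2) :=
          Cardinal.mk_iUnion_le_sum_mk
      _ ≤ Cardinal.sum fun _ : Cj W × W × ℕ => ℵ₀ := Cardinal.sum_le_sum _ _ fun x =>
          Cardinal.le_aleph0_iff_set_countable.2 (hS _ _ _)
      _ = #(Cj W × W × ℕ) := by
          rw [Cardinal.sum_const']
          exact Cardinal.mul_eq_left hinf hinf Cardinal.aleph0_ne_zero
  have h3 : #(KK W) = 2 ^ #(Cj W × W × ℕ) := Cardinal.mk_set
  rw [h3] at h2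
  exact absurd (Cardinal.cantor _) (not_lt.2 h2)

/-- the notion of forcing -/
abbrev FF (W : Type) [LinearOrder W] : Type := PP W (mu (KK W))

theorem forces_meag (hW : IsOm W) [WellFoundedLT W] (p : FF W) : p ∈ MeagN (FF W) W := by
  classical
  intro F
  refine mem_fex.2 fun q _ => ?_
  choose g hg1 E hE1 hE2 hE3 using fun (j : Cj W) (a : W) => exists_names hW (F a) j
    (μ := mu (KK W))
  choose S hS1 hS2 using fun (j : Cj W) (a : W) (k : ℕ) => exists_support _ (hE1 j a k)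
  obtain ⟨κ, hκ⟩ := exists_index hW S hS1
  let z : ℕ → Set (FF W) := fun k => {r | r.2.1 ⊆ {w | w (κ, k) = true}}
  refine ⟨q, le_rfl, z, fun a => mem_fex.2 fun q1 _ => ?_⟩
  obtain ⟨m, hm⟩ := exists_good κ (hE1 q1.1 a) (fun k => ⟨S q1.1 a k, hκ q1.1 a k, hS2 q1.1 a k⟩)
    q1.2.2.2
  have hmeas : MeasurableSet (q1.2.1 \ ⋃ n ∈ Set.Ici m, bad κ (E q1.1 a) n) :=
    q1.2.2.1.diff (MeasurableSet.biUnion (Set.to_countable _) fun n _ =>
      measurable_bad κ (hE1 q1.1 a) n)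
  let b : Bs (mu (KK W)) := ⟨_, hmeas, hm⟩
  refine ⟨(g q1.1 a, b), ⟨hg1 q1.1 a, (sdiff_subset : b.1 ⊆ q1.2.1)⟩, m, fun n hn => ?_⟩
  refine mem_fex.2 fun q2 hq2 => ?_
  -- a place where they differ
  have h1 : ∃ k ∈ Finset.Ico n (2 * n), mu (KK W) (q2.2.1 ∩
      {w | ¬ (w ∈ E q1.1 a k ↔ w (κ, k) = true)}) ≠ 0 := by
    by_contra hcon
    have hcon' : ∀ k ∈ Finset.Ico n (2 * n), mu (KK W) (q2.2.1 ∩
        {w | ¬ (w ∈ E q1.1 a k ↔ w (κ, k) = true)}) = 0 :=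
      fun k hk => by_contra fun h => hcon ⟨k, hk, h⟩
    apply q2.2.2.2
    have h2 : q2.2.1 ⊆ ⋃ k ∈ Finset.Ico n (2 * n), q2.2.1 ∩
        {w | ¬ (w ∈ E q1.1 a k ↔ w (κ, k) = true)} := by
      intro w hw
      have h3 : w ∈ b.1 := hq2.2 hw
      have h4 : w ∉ bad κ (E q1.1 a) n := fun h => h3.2 (mem_iUnion₂.2 ⟨n, hn, h⟩)
      simp only [bad, mem_ofPred_eq, not_forall] at h4
      obtain ⟨k, hk, hk'⟩ := h4
      exact mem_iUnion₂.2 ⟨k, hk, hw, hk'⟩
    refine measure_mono_null h2 ?_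
    exact (measure_biUnion_null_iff (Finset.countable_toSet _)).2 hcon'
  obtain ⟨k, hk, hkm⟩ := h1
  have hk' := Finset.mem_Ico.1 hk
  have hMz : MeasurableSet {w : Om (KK W) | w (κ, k) = true} := by
    have h4 : Measurable (fun w : Om (KK W) => w (κ, k)) := measurable_pi_apply (κ, k)
    exact h4 (measurableSet_singleton true)
  by_cases hcase : mu (KK W) (q2.2.1 ∩ (E q1.1 a k ∩ {w | w (κ, k) = true}ᶜ)) = 0
  · have h2 : mu (KK W) (q2.2.1 ∩ ((E q1.1 a k)ᶜ ∩ {w | w (κ, k) = true})) ≠ 0 := by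
      intro h2
      apply hkm
      refine measure_mono_null ?_ (measure_union_null hcase h2)
      rintro w ⟨hw1, hw2⟩
      simp only [mem_ofPred_eq] at hw2
      by_cases hw3 : w ∈ E q1.1 a k
      · left
        refine ⟨hw1, hw3, fun h => hw2 ⟨fun _ => h, fun _ => hw3⟩⟩
      · right
        refine ⟨hw1, hw3, ?_⟩
        by_contra h
        exact hw2 ⟨fun h' => absurd h' hw3, fun h' => absurd h' h⟩
    let c : Bs (mu (KK W)) := ⟨_, q2.2.2.1.inter ((hE1 q1.1 a k).compl.inter hMz), h2⟩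
    refine ⟨(q2.1, c), ⟨le_rfl, (inter_subset_left : c.1 ⊆ q2.2.1)⟩, k, hk', ?_⟩
    intro r hr hcon
    -- `k ∈ z` but not in the set
    have h3 : r ∈ meets (z k) := meets_of_mem' (p := r)
      (fun w hw => (hr.2 hw).2.2) le_rfl
    obtain ⟨s, hs, h4⟩ := mem_fimp.1 hcon.2 r le_rfl h3
    have h5 : ((g q1.1 a, s.2) : FF W) ∈ fnot (meets (F a k)) := hE3 q1.1 a k s.2
      (Set.disjoint_left.2 fun w hw => ((hr.2 (hs.2 hw)).2.1 : w ∉ E q1.1 a k))
    exact h5 s ⟨(hs.1.trans hr.1).trans hq2.1, le_rfl⟩ h4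
  · let c : Bs (mu (KK W)) := ⟨_, q2.2.2.1.inter ((hE1 q1.1 a k).inter hMz.compl), hcase⟩
    refine ⟨(q2.1, c), ⟨le_rfl, (inter_subset_left : c.1 ⊆ q2.2.1)⟩, k, hk', ?_⟩
    intro r hr hcon
    have h3 : ((g q1.1 a, r.2) : FF W) ∈ meets (F a k) := hE2 q1.1 a k r.2
      (fun w hw => (hr.2 hw).2.1)
    have h4 : r ∈ meets (F a k) := down_meets _ _ h3 _ ⟨(hr.1).trans hq2.1, le_rfl⟩
    obtain ⟨s, hs, h5⟩ := mem_fimp.1 hcon.1 r le_rfl h4
    obtain ⟨u, hu, v, hv, huv⟩ := h5 s le_rfl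
    obtain ⟨w, hw⟩ := nonempty_of_measure_ne_zero u.2.2.2
    exact (hr.2 (hs.2 (hu.2 hw))).2.2 (hv (huv.2 hw))

/-- Every condition forces the combinatorial statement. -/
theorem forces_comb (hW : IsOm W) [WellFoundedLT W] (p : FF W) : p ∈ CombN (FF W) W :=
  ⟨forces_unc hW p, forces_souslin hW p, forces_meag hW p⟩

end Pool.Agent.TH785.SD
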